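import Pool.Agent.V7H89.SX.Cell

set_option autoImplicit false
set_option linter.unusedSectionVars false

/-!
# The hidden differences along a random matching are close to uniform, given a short message
-/

namespace Pool.Agent.V7H89.SX

open Finset
open scoped Classical

/-- bound for the second moment of the information -/
lemma ent_sq {μ : Type*} [Fintype μ] (p : μ → ℝ) (h0 : ∀ a, 0 ≤ p a) (h1 : ∑ a, p a = 1) :
    ∑ a, p a * (Real.log (1 / p a)) ^ 2 ≤ 4 * (Real.log (Fintype.card μ)) ^ 2 + 16 := by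
  have hne : Nonempty μ := by
    by_contra h
    rw [not_nonempty_iff] at h
    simp at h1
  have hc : (0 : ℝ) < Fintype.card μ := by exact_mod_cast Fintype.card_pos
  have hc1 : (1 : ℝ) ≤ Fintype.card μ := by exact_mod_cast Fintype.card_pos
  set S := Real.log (Fintype.card μ) with hS
  have hS0 : 0 ≤ S := Real.log_nonneg hc1
  have key : ∀ a, p a * (Real.log (1 / p a)) ^ 2 ≤ 4 * S ^ 2 * p a + 16 / Fintype.card μ := by
    intro a
    have hp1 : p a ≤ 1 := by
      rw [← h1]
      exact single_le_sum (f := p) (fun b _ => h0 b) (mem_univ a)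
    rcases (h0 a).eq_or_lt with h | h
    · rw [← h]
      simp only [zero_mul, mul_zero, zero_add]
      positivity
    · set u := Real.log (1 / p a) with hu
      have hu0 : 0 ≤ u := Real.log_nonneg (by rw [le_div_iff₀ h]; linarith)
      have hpe : p a = Real.exp (-u) := by
        rw [hu, one_div, Real.log_inv, neg_neg, Real.exp_log h]
      rcases le_or_gt u (2 * S) with h2 | h2
      · have : u ^ 2 ≤ 4 * S ^ 2 := by nlinarith
        have := mul_le_mul_of_nonneg_left this h.le
        have h3 : 0 ≤ 16 / (Fintype.card μ : ℝ) := by positivity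
        linarith
      · have h3 : u ^ 2 ≤ 16 * Real.exp (u / 2) := by
          have h4 := Real.add_one_le_exp (u / 4)
          have h5 : (u / 4) ^ 2 ≤ (Real.exp (u / 4)) ^ 2 := by
            apply pow_le_pow_left₀ (by positivity)
            linarith
          have h6 : (Real.exp (u / 4)) ^ 2 = Real.exp (u / 2) := by
            rw [← Real.exp_nat_mul]; congr 1; push_cast; ring
          rw [h6] at h5
          linarith
        have h4 : p a * u ^ 2 ≤ 16 * Real.exp (-(u / 2)) := by
          calc p a * u ^ 2 ≤ Real.exp (-u) * (16 * Real.exp (u / 2)) := by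
                rw [hpe]
                exact mul_le_mul_of_nonneg_left h3 (Real.exp_pos _).le
            _ = 16 * Real.exp (-(u / 2)) := by
                rw [mul_left_comm, ← Real.exp_add]; congr 2; ring
        have h5 : Real.exp (-(u / 2)) ≤ 1 / Fintype.card μ := by
          rw [Real.exp_neg, one_div]
          apply inv_anti₀ hc
          calc (Fintype.card μ : ℝ) = Real.exp S := by rw [hS, Real.exp_log hc]
            _ ≤ Real.exp (u / 2) := Real.exp_le_exp.2 (by linarith)
        have h6 : 0 ≤ 4 * S ^ 2 * p a := by positivity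
        calc p a * u ^ 2 ≤ 16 * Real.exp (-(u / 2)) := h4
          _ ≤ 16 * (1 / Fintype.card μ) := by linarith
          _ = 16 / Fintype.card μ := by ring
          _ ≤ _ := by linarith
  calc ∑ a, p a * (Real.log (1 / p a)) ^ 2 ≤ ∑ a, (4 * S ^ 2 * p a + 16 / Fintype.card μ) :=
        sum_le_sum fun a _ => key a
    _ = 4 * S ^ 2 + 16 := by
        rw [sum_add_distrib, ← mul_sum, h1, sum_const, card_univ, nsmul_eq_mul]
        field_simp

/-- the constant of the bound: `N` pairs, `q` labels, messages with entropy `S` -/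
noncomputable def Bc (N q : ℕ) (S : ℝ) : ℝ := 64 * (8 * S ^ 2 + 32 + (Real.log N) ^ 2 + q)

lemma Bc_nonneg (N q : ℕ) (S : ℝ) : 0 ≤ Bc N q S := by
  unfold Bc
  have : (0 : ℝ) ≤ q := Nat.cast_nonneg _
  nlinarith [sq_nonneg S, sq_nonneg (Real.log N)]

section

variable {N : ℕ} {G : Type} [AddCommGroup G] [Fintype G] [DecidableEq G]
variable {μ : Type} [Fintype μ] [DecidableEq μ]

lemma sum_Tp (F : (Fin N → G) → (Fin N → G) → ℝ) :
    ∑ i, ∑ j, Tp F i j = ∑ i, ∑ c, ∑ j, ∑ c', (cf F i j c c') ^ 2 := by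
  unfold Tp
  exact sum_congr rfl fun i _ => sum_comm

lemma sum_St (A : (Fin N → G) → (Fin N → G) → μ) (σ τ : Equiv.Perm (Fin N)) (t : Fin N) :
    ∑ i, ∑ j, St A σ τ t i j ≤ Bc N (Fintype.card G) (Real.log (Fintype.card μ)) := by
  have : Nonempty (Fin N) := ⟨t⟩
  set L := Real.log N with hL
  set S := Real.log (Fintype.card μ) with hS
  have hL0 : 0 ≤ L := Real.log_natCast_nonneg N
  unfold St
  simp only [← ev_sum]
  have e : ∀ v : Fin N → G, ∑ i, ∑ j, ∑ a, Tp (Fa A σ τ t a v) i j / Mt A σ τ t a v ≤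
      Bc N (Fintype.card G) S := by
    intro v
    have e1 : ∑ i, ∑ j, ∑ a, Tp (Fa A σ τ t a v) i j / Mt A σ τ t a v =
        ∑ a, (∑ i, ∑ j, Tp (Fa A σ τ t a v) i j) / Mt A σ τ t a v := by
      have : ∀ i, ∑ j, ∑ a, Tp (Fa A σ τ t a v) i j / Mt A σ τ t a v =
          ∑ a, ∑ j, Tp (Fa A σ τ t a v) i j / Mt A σ τ t a v := fun i => sum_comm
      simp only [this]
      rw [sum_comm]
      simp only [← sum_div]
    rw [e1]
    have e2 : ∀ a, (∑ i, ∑ j, Tp (Fa A σ τ t a v) i j) / Mt A σ τ t a v ≤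
        64 * (3 / 2 * (Mt A σ τ t a v * (Real.log (1 / Mt A σ τ t a v)) ^ 2) +
          Mt A σ τ t a v * (L ^ 2 / 2 + Fintype.card G)) := by
      intro a
      set m := Mt A σ τ t a v with hm
      rcases (Mt_nonneg A σ τ t a v).eq_or_lt with h | h
      · rw [hm, ← h]
        simp
      · have h1 := level2 (Fa A σ τ t a v) (Fa_nonneg A σ τ t a v) (Fa_le_one A σ τ t a v) h
        rw [sum_Tp, div_le_iff₀ h]
        rw [Fintype.card_fin] at h1
        change _ ≤ 64 * m ^ 2 * (Real.log (1 / m) * (Real.log (1 / m) + Real.log N) + Fintype.card G) at h1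
        refine h1.trans ?_
        rw [← hL]
        have h2 : Real.log (1 / m) * (Real.log (1 / m) + L) ≤ 3 / 2 * (Real.log (1 / m)) ^ 2 + L ^ 2 / 2 := by
          nlinarith [sq_nonneg (Real.log (1 / m) - L)]
        have h3 : 0 ≤ 64 * m ^ 2 := by positivity
        calc 64 * m ^ 2 * (Real.log (1 / m) * (Real.log (1 / m) + L) + Fintype.card G)
            ≤ 64 * m ^ 2 * (3 / 2 * (Real.log (1 / m)) ^ 2 + L ^ 2 / 2 + Fintype.card G) :=
              mul_le_mul_of_nonneg_left (by linarith) h3
          _ = _ := by ring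
    have e3 := ent_sq (fun a => Mt A σ τ t a v) (fun a => Mt_nonneg A σ τ t a v) (sum_Mt A σ τ t v)
    calc ∑ a, (∑ i, ∑ j, Tp (Fa A σ τ t a v) i j) / Mt A σ τ t a v
        ≤ ∑ a, 64 * (3 / 2 * (Mt A σ τ t a v * (Real.log (1 / Mt A σ τ t a v)) ^ 2) +
          Mt A σ τ t a v * (L ^ 2 / 2 + Fintype.card G)) := sum_le_sum fun a _ => e2 a
      _ = 64 * (3 / 2 * (∑ a, Mt A σ τ t a v * (Real.log (1 / Mt A σ τ t a v)) ^ 2) +
          (L ^ 2 / 2 + Fintype.card G)) := by
          rw [← mul_sum, sum_add_distrib, ← mul_sum, ← sum_mul, sum_Mt, one_mul]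
      _ ≤ _ := by
          unfold Bc
          rw [← hL]
          nlinarith [sq_nonneg L, sq_nonneg S]
  have h := ev_mono e
  rwa [ev_const] at h

/-- total growth of the entropy -/
lemma Hh_total (A : (Fin N → G) → (Fin N → G) → μ) (T : ℕ) (hT : T < N) :
    ev (fun σ : Equiv.Perm (Fin N) => ev (fun τ : Equiv.Perm (Fin N) =>
        Hh A σ τ T - Hh A σ τ 0)) ≤
      T * ((Fintype.card G : ℝ) ^ 2 * Bc N (Fintype.card G) (Real.log (Fintype.card μ)) /
        ((N : ℝ) - T) ^ 2) := by
  set B := Bc N (Fintype.card G) (Real.log (Fintype.card μ)) with hB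
  have hB0 : 0 ≤ B := Bc_nonneg _ _ _
  have key : ∀ s : ℕ, s ≤ T → ev (fun σ : Equiv.Perm (Fin N) => ev (fun τ : Equiv.Perm (Fin N) =>
        Hh A σ τ s - Hh A σ τ 0)) ≤ s * ((Fintype.card G : ℝ) ^ 2 * B / ((N : ℝ) - T) ^ 2) := by
    intro s
    induction s with
    | zero =>
      intro _
      simp [ev_zero]
    | succ s ih =>
      intro hs
      have ih' := ih (by omega)
      set t : Fin N := ⟨s, by omega⟩ with ht
      have hts : ((t : Fin N) : ℕ) = s := rfl
      have h1 : ev (fun σ : Equiv.Perm (Fin N) => ev (fun τ : Equiv.Perm (Fin N) =>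
          Hh A σ τ (s + 1) - Hh A σ τ 0)) ≤
          ev (fun σ : Equiv.Perm (Fin N) => ev (fun τ : Equiv.Perm (Fin N) =>
          (Fintype.card G : ℝ) ^ 2 * St A σ τ t (σ t) (τ t))) +
          ev (fun σ : Equiv.Perm (Fin N) => ev (fun τ : Equiv.Perm (Fin N) =>
          Hh A σ τ s - Hh A σ τ 0)) := by
        rw [← ev_add]
        refine ev_mono fun σ => ?_
        rw [← ev_add]
        refine ev_mono fun τ => ?_
        have := Hh_step A σ τ t
        rw [hts] at this
        linarith
      have h2 : ev (fun σ : Equiv.Perm (Fin N) => ev (fun τ : Equiv.Perm (Fin N) =>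
          (Fintype.card G : ℝ) ^ 2 * St A σ τ t (σ t) (τ t))) ≤
          (Fintype.card G : ℝ) ^ 2 * B / ((N : ℝ) - T) ^ 2 := by
        simp only [ev_mul]
        rw [mul_div_assoc]
        refine mul_le_mul_of_nonneg_left ?_ (by positivity)
        have hNT : (0 : ℝ) < (N : ℝ) - T := by
          have : (T : ℝ) < N := by exact_mod_cast hT
          linarith
        have hle : (N : ℝ) - T ≤ (N : ℝ) - t := by
          have : ((t : ℕ) : ℝ) ≤ T := by
            rw [hts]; exact_mod_cast (by omega : s ≤ T)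
          linarith
        have h3 := St_ev A t
        have h4 : ev (fun σ : Equiv.Perm (Fin N) => ev (fun τ : Equiv.Perm (Fin N) =>
            ∑ i, ∑ j, St A σ τ t i j)) ≤ B := by
          have h5 : ∀ σ : Equiv.Perm (Fin N), ev (fun τ : Equiv.Perm (Fin N) =>
              ∑ i, ∑ j, St A σ τ t i j) ≤ B := by
            intro σ
            have := ev_mono (fun τ : Equiv.Perm (Fin N) => sum_St A σ τ t)
            rwa [ev_const] at this
          have := ev_mono h5
          rwa [ev_const] at this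
        set X := ev (fun σ : Equiv.Perm (Fin N) => ev (fun τ : Equiv.Perm (Fin N) =>
          St A σ τ t (σ t) (τ t))) with hX
        have hX0 : 0 ≤ X := ev_nonneg fun σ => ev_nonneg fun τ => St_nonneg _ _ _ _ _ _
        rw [le_div_iff₀ (by positivity)]
        have h6 : ((N : ℝ) - T) ^ 2 ≤ ((N : ℝ) - t) ^ 2 := by
          apply pow_le_pow_left₀ hNT.le hle
        calc X * ((N : ℝ) - T) ^ 2 ≤ X * ((N : ℝ) - t) ^ 2 := mul_le_mul_of_nonneg_left h6 hX0
          _ = ((N : ℝ) - t) ^ 2 * X := by ring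
          _ ≤ _ := h3
          _ ≤ B := h4
      push_cast
      linarith
  exact key T le_rfl

/-- the differences seen by a player: true ones at the first `T` places, then arbitrary ones -/
def mixf (T : ℕ) (x y : Fin N → G) (z : Equiv.Perm (Fin N) × Equiv.Perm (Fin N) × (Fin N → G)) :
    Fin N → G :=
  fun t => if (t : ℕ) < T then y (z.2.1 t) - x (z.1 t) else z.2.2 t

/-- change of variables -/
def chg (σ τ : Equiv.Perm (Fin N)) (T : ℕ) (x : Fin N → G) :
    ((Fin N → G) × (Fin N → G)) ≃ ((Fin N → G) × (Fin N → G)) where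
  toFun p := (comp σ τ T p.1 x p.2, fun t => if (t : ℕ) < T then p.2 (τ t) else p.1 t)
  invFun p := (mixf T x p.1 (σ, τ, p.2), fun j => if ((τ.symm j : Fin N) : ℕ) < T then
    p.2 (τ.symm j) else p.1 j)
  left_inv := by
    rintro ⟨v, y⟩
    ext t
    · simp only [mixf, comp]
      split_ifs with h1 h2
      · simp
      · exact absurd (by simpa using h1) h2
      · rfl
    · simp only [comp]
      split_ifs with h1
      · simp
      · rfl
  right_inv := by
    rintro ⟨y, w⟩
    ext t
    · simp only [comp, mixf]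
      split_ifs with h1
      · simp
      · rfl
    · simp only [mixf]
      split_ifs with h1 h2
      · simp
      · exact absurd (by simpa using h1) h2
      · rfl

lemma mixf_chg (σ τ : Equiv.Perm (Fin N)) (T : ℕ) (x : Fin N → G) (p : (Fin N → G) × (Fin N → G)) :
    mixf T x (chg σ τ T x p).1 (σ, τ, (chg σ τ T x p).2) = p.1 := by
  have := (chg σ τ T x).left_inv p
  exact congrArg Prod.fst this

lemma yes_eq (A : (Fin N → G) → (Fin N → G) → μ) (σ τ : Equiv.Perm (Fin N)) (T : ℕ)
    (D : μ → (Fin N → G) → ℝ) :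
    ev (fun x => ev (fun y => ev (fun w => D (A x y) (mixf T x y (σ, τ, w))))) =
      ev (fun v => ∑ a, Mt A σ τ T a v * D a v) := by
  have h1 : ∀ x : Fin N → G, ev (fun y => ev (fun w => D (A x y) (mixf T x y (σ, τ, w)))) =
      ev (fun v => ev (fun y => ∑ a, Fa A σ τ T a v x y * D a v)) := by
    intro x
    rw [← ev_prod (fun p : (Fin N → G) × (Fin N → G) => D (A x p.1) (mixf T x p.1 (σ, τ, p.2))),
      ← ev_prod (fun p : (Fin N → G) × (Fin N → G) => ∑ a, Fa A σ τ T a p.1 x p.2 * D a p.1),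
      ← ev_equiv (chg σ τ T x)]
    refine ev_congr fun p => ?_
    rw [mixf_chg]
    unfold Fa
    rw [sum_eq_single (A x (comp σ τ T p.1 x p.2))]
    · simp [chg]
    · intro a _ ha
      rw [if_neg (Ne.symm ha), zero_mul]
    · simp
  simp only [h1]
  rw [ev_comm]
  refine ev_congr fun v => ?_
  rw [ev_comm]
  unfold Mt
  have : ∀ y : Fin N → G, ev (fun x => ∑ a, Fa A σ τ T a v x y * D a v) =
      ∑ a, ev (fun x => Fa A σ τ T a v x y) * D a v := by
    intro y
    rw [ev_sum]
    exact sum_congr rfl fun a _ => ev_mul' _ _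
  simp only [this]
  rw [ev_sum]
  exact sum_congr rfl fun a _ => ev_mul' _ _

lemma Mt_zero (A : (Fin N → G) → (Fin N → G) → μ) (σ τ : Equiv.Perm (Fin N)) (a : μ)
    (v v' : Fin N → G) : Mt A σ τ 0 a v = Mt A σ τ 0 a v' := by
  unfold Mt Fa comp
  simp

lemma no_eq (A : (Fin N → G) → (Fin N → G) → μ) (σ τ : Equiv.Perm (Fin N))
    (D : μ → (Fin N → G) → ℝ) :
    ev (fun x => ev (fun y => ev (fun w => D (A x y) w))) =
      ev (fun v => ∑ a, Mt A σ τ 0 a v * D a v) := by
  rw [← yes_eq A σ τ 0 D]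
  unfold mixf
  simp

lemma ev_Mt (A : (Fin N → G) → (Fin N → G) → μ) (σ τ : Equiv.Perm (Fin N)) (a : μ) (v₀ : Fin N → G)
    (T : ℕ) (hT : T ≤ N) : ev (fun v => Mt A σ τ T a v) = Mt A σ τ 0 a v₀ := by
  induction T with
  | zero =>
    rw [ev_congr (fun v => Mt_zero A σ τ a v v₀)]
    exact ev_const _
  | succ T ih =>
    rw [← ih (by omega), ev_update (⟨T, by omega⟩ : Fin N) (fun v => Mt A σ τ (T + 1) a v)]
    refine ev_congr fun v => ?_
    exact Mt_mean A σ τ (⟨T, by omega⟩ : Fin N) a v

/-- for fixed matchings -/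
lemma cell_fix (A : (Fin N → G) → (Fin N → G) → μ) (σ τ : Equiv.Perm (Fin N)) (T : ℕ) (hT : T ≤ N)
    (D : μ → (Fin N → G) → ℝ) (D0 : ∀ a v, 0 ≤ D a v) (D1 : ∀ a v, D a v ≤ 1) :
    (ev (fun x => ev (fun y => ev (fun w => D (A x y) (mixf T x y (σ, τ, w))))) -
      ev (fun x => ev (fun y => ev (fun w => D (A x y) w)))) ^ 2 ≤
      4 * (Hh A σ τ T - Hh A σ τ 0) := by
  rw [yes_eq, no_eq A σ τ, ← ev_sub]
  have hc : (0 : ℝ) < Fintype.card (Fin N → G) := by exact_mod_cast Fintype.card_pos
  set P : (Fin N → G) × μ → ℝ := fun p => Mt A σ τ T p.2 p.1 / Fintype.card (Fin N → G) with hP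
  set Q : (Fin N → G) × μ → ℝ := fun p => Mt A σ τ 0 p.2 p.1 / Fintype.card (Fin N → G) with hQ
  have P0 : ∀ p, 0 ≤ P p := fun p => div_nonneg (Mt_nonneg _ _ _ _ _ _) hc.le
  have Q0 : ∀ p, 0 ≤ Q p := fun p => div_nonneg (Mt_nonneg _ _ _ _ _ _) hc.le
  have tot : ∀ s : ℕ, ∑ p : (Fin N → G) × μ, Mt A σ τ s p.2 p.1 / Fintype.card (Fin N → G) = 1 := by
    intro s
    rw [Fintype.sum_prod_type]
    simp only [← sum_div, sum_Mt]
    rw [sum_const, card_univ, nsmul_eq_mul, mul_one, div_self hc.ne']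
  have hac : ∀ p, Q p = 0 → P p = 0 := by
    rintro ⟨v, a⟩ h
    have h1 : Mt A σ τ 0 a v = 0 := by
      rw [hQ] at h
      simp only at h
      rw [div_eq_zero_iff] at h
      rcases h with h | h
      · exact h
      · exact absurd h hc.ne'
    rw [← ev_Mt A σ τ a v T hT] at h1
    unfold ev at h1
    rw [div_eq_zero_iff] at h1
    rcases h1 with h1 | h1
    · have := (sum_eq_zero_iff_of_nonneg (fun v' _ => Mt_nonneg A σ τ T a v')).1 h1 v (mem_univ v)
      rw [hP]
      simp [this]
    · exact absurd h1 hc.ne'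
  have hh := hell P Q P0 Q0 (tot T) (tot 0) hac
  have h1 : |ev (fun v => ∑ a, Mt A σ τ T a v * D a v - ∑ a, Mt A σ τ 0 a v * D a v)| ≤
      ∑ p, |P p - Q p| := by
    refine (ev_abs _).trans ?_
    rw [Fintype.sum_prod_type]
    unfold ev
    rw [sum_div]
    refine sum_le_sum fun v _ => ?_
    rw [← sum_sub_distrib]
    have e1 : |∑ a, (Mt A σ τ T a v * D a v - Mt A σ τ 0 a v * D a v)| ≤
        ∑ a, |Mt A σ τ T a v - Mt A σ τ 0 a v| := by
      refine (abs_sum_le_sum_abs _ _).trans (sum_le_sum fun a _ => ?_)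
      rw [← sub_mul, abs_mul, abs_of_nonneg (D0 a v)]
      exact mul_le_of_le_one_right (abs_nonneg _) (D1 a v)
    calc |∑ a, (Mt A σ τ T a v * D a v - Mt A σ τ 0 a v * D a v)| / (Fintype.card (Fin N → G) : ℝ)
        ≤ (∑ a, |Mt A σ τ T a v - Mt A σ τ 0 a v|) / (Fintype.card (Fin N → G) : ℝ) :=
          div_le_div_of_nonneg_right e1 hc.le
      _ = ∑ a, |P (v, a) - Q (v, a)| := by
          rw [sum_div]
          refine sum_congr rfl fun a _ => ?_
          rw [hP, hQ]
          simp only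
          rw [← sub_div, abs_div, abs_of_pos hc]
  have h2 : ∑ p, P p * Real.log (P p / Q p) = Hh A σ τ T - Hh A σ τ 0 := by
    rw [Fintype.sum_prod_type]
    have e1 : ∀ v a, P (v, a) * Real.log (P (v, a) / Q (v, a)) =
        (Mt A σ τ T a v * Real.log (Mt A σ τ T a v) -
          Mt A σ τ T a v * Real.log (Mt A σ τ 0 a v)) / Fintype.card (Fin N → G) := by
      intro v a
      have e2 : P (v, a) / Q (v, a) = Mt A σ τ T a v / Mt A σ τ 0 a v := by
        rw [hP, hQ]
        simp only
        rw [div_div_div_cancel_right₀ hc.ne']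
      rw [e2]
      rcases (Mt_nonneg A σ τ T a v).eq_or_lt with h | h
      · rw [hP]
        simp [← h]
      · have h3 : Mt A σ τ 0 a v ≠ 0 := by
          intro h4
          have := hac (v, a) (by rw [hQ]; simp [h4])
          rw [hP] at this
          simp only at this
          rw [div_eq_zero_iff] at this
          rcases this with h5 | h5
          · exact h.ne' h5
          · exact hc.ne' h5
        rw [Real.log_div h.ne' h3, hP]
        simp only
        ring
    simp only [e1, ← sum_div]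
    have e3 : (∑ v, ∑ a, (Mt A σ τ T a v * Real.log (Mt A σ τ T a v) -
        Mt A σ τ T a v * Real.log (Mt A σ τ 0 a v))) / (Fintype.card (Fin N → G) : ℝ) =
        ev (fun v => ∑ a, Mt A σ τ T a v * Real.log (Mt A σ τ T a v)) -
        ev (fun v => ∑ a, Mt A σ τ T a v * Real.log (Mt A σ τ 0 a v)) := by
      rw [← ev_sub]
      simp only [← sum_sub_distrib]
      rfl
    rw [e3]
    unfold Hh
    congr 1
    rw [ev_sum, ev_sum]
    refine sum_congr rfl fun a _ => ?_
    have v₀ : Fin N → G := fun _ => 0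
    rw [ev_congr (g := fun v => Mt A σ τ T a v * Real.log (Mt A σ τ 0 a v₀))
      (fun v => by rw [Mt_zero A σ τ a v v₀]), ev_mul', ev_Mt A σ τ a v₀ T hT,
      ev_congr (f := fun v => Mt A σ τ 0 a v * Real.log (Mt A σ τ 0 a v))
      (g := fun _ => Mt A σ τ 0 a v₀ * Real.log (Mt A σ τ 0 a v₀))
      (fun v => by rw [Mt_zero A σ τ a v v₀]), ev_const]
  rw [← h2]
  refine le_trans ?_ hh
  rw [← sq_abs (ev _)]
  exact pow_le_pow_left₀ (abs_nonneg _) h1 2

/-- The main estimate: on average over the matchings the message does not help to distinguish the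
true differences from uniform ones. -/
theorem cell (A : (Fin N → G) → (Fin N → G) → μ) (T : ℕ) (hT : T < N)
    (D : μ → Equiv.Perm (Fin N) × Equiv.Perm (Fin N) × (Fin N → G) → ℝ)
    (D0 : ∀ a z, 0 ≤ D a z) (D1 : ∀ a z, D a z ≤ 1) :
    (ev (fun x => ev (fun y => ev (fun z : Equiv.Perm (Fin N) × Equiv.Perm (Fin N) × (Fin N → G) =>
        D (A x y) (z.1, z.2.1, mixf T x y z)))) -
      ev (fun x => ev (fun y => ev (fun z => D (A x y) z)))) ^ 2 ≤
      4 * (T * ((Fintype.card G : ℝ) ^ 2 * Bc N (Fintype.card G) (Real.log (Fintype.card μ)) /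
        ((N : ℝ) - T) ^ 2)) := by
  have r1 : ∀ h : (Fin N → G) → (Fin N → G) →
      Equiv.Perm (Fin N) × Equiv.Perm (Fin N) × (Fin N → G) → ℝ,
      ev (fun x => ev (fun y => ev (fun z => h x y z))) =
      ev (fun σ => ev (fun τ => ev (fun x => ev (fun y => ev (fun w => h x y (σ, τ, w)))))) := by
    intro h
    have s1 : ∀ x y, ev (fun z => h x y z) = ev (fun σ => ev (fun τ => ev (fun w => h x y (σ, τ, w)))) := by
      intro x y
      rw [ev_prod]
      exact ev_congr fun σ => by rw [ev_prod]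
    simp only [s1]
    have s2 : ∀ x, ev (fun y => ev (fun σ => ev (fun τ => ev (fun w => h x y (σ, τ, w))))) =
        ev (fun σ => ev (fun τ => ev (fun y => ev (fun w => h x y (σ, τ, w))))) := by
      intro x
      rw [ev_comm]
      exact ev_congr fun σ => by rw [ev_comm]
    simp only [s2]
    rw [ev_comm]
    exact ev_congr fun σ => by rw [ev_comm]
  rw [r1 (fun x y z => D (A x y) (z.1, z.2.1, mixf T x y z)), r1 (fun x y z => D (A x y) z), ← ev_sub]
  refine (ev_sq_le _).trans ?_
  have h2 := Hh_total A T hT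
  calc ev (fun σ : Equiv.Perm (Fin N) => (ev (fun τ => ev (fun x => ev (fun y => ev (fun w =>
          D (A x y) (σ, τ, mixf T x y (σ, τ, w)))))) -
        ev (fun τ => ev (fun x => ev (fun y => ev (fun w => D (A x y) (σ, τ, w)))))) ^ 2)
      ≤ ev (fun σ : Equiv.Perm (Fin N) => ev (fun τ : Equiv.Perm (Fin N) =>
          4 * (Hh A σ τ T - Hh A σ τ 0))) := by
        refine ev_mono fun σ => ?_
        rw [← ev_sub]
        refine (ev_sq_le _).trans (ev_mono fun τ => ?_)
        exact cell_fix A σ τ T hT.le (fun a v => D a (σ, τ, v)) (fun a v => D0 _ _) (fun a v => D1 _ _)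
    _ = 4 * ev (fun σ : Equiv.Perm (Fin N) => ev (fun τ : Equiv.Perm (Fin N) =>
          Hh A σ τ T - Hh A σ τ 0)) := by
        simp only [ev_mul]
    _ ≤ _ := by linarith

end

end Pool.Agent.V7H89.SX
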