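import Pool.Agent.V7H89.SX.Lev

set_option autoImplicit false
set_option linter.unusedSectionVars false

/-!
# The information of a short message about the differences of hidden labels along a random matching
-/

namespace Pool.Agent.V7H89.SX

open Finset
open scoped Classical

section

variable {N : ℕ} {G : Type} [AddCommGroup G] [Fintype G] [DecidableEq G]
variable {μ : Type} [Fintype μ] [DecidableEq μ]

/-- the labels on the right with prescribed differences at the first `t` pairs -/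
def comp (σ τ : Equiv.Perm (Fin N)) (t : ℕ) (v x y : Fin N → G) : Fin N → G :=
  fun j => if ((τ.symm j : Fin N) : ℕ) < t then x (σ (τ.symm j)) + v (τ.symm j) else y j

/-- indicator of the message `a`, given the differences at the first `t` pairs -/
noncomputable def Fa (A : (Fin N → G) → (Fin N → G) → μ) (σ τ : Equiv.Perm (Fin N)) (t : ℕ) (a : μ)
    (v x y : Fin N → G) : ℝ :=
  if A x (comp σ τ t v x y) = a then 1 else 0

/-- probability of the message `a`, given the differences at the first `t` pairs -/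
noncomputable def Mt (A : (Fin N → G) → (Fin N → G) → μ) (σ τ : Equiv.Perm (Fin N)) (t : ℕ) (a : μ)
    (v : Fin N → G) : ℝ :=
  ev (fun y => ev (fun x => Fa A σ τ t a v x y))

lemma Fa_nonneg (A : (Fin N → G) → (Fin N → G) → μ) (σ τ : Equiv.Perm (Fin N)) (t : ℕ) (a : μ)
    (v x y : Fin N → G) : 0 ≤ Fa A σ τ t a v x y := by
  unfold Fa; split_ifs <;> norm_num

lemma Fa_le_one (A : (Fin N → G) → (Fin N → G) → μ) (σ τ : Equiv.Perm (Fin N)) (t : ℕ) (a : μ)
    (v x y : Fin N → G) : Fa A σ τ t a v x y ≤ 1 := by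
  unfold Fa; split_ifs <;> norm_num

lemma Mt_nonneg (A : (Fin N → G) → (Fin N → G) → μ) (σ τ : Equiv.Perm (Fin N)) (t : ℕ) (a : μ)
    (v : Fin N → G) : 0 ≤ Mt A σ τ t a v :=
  ev_nonneg fun _ => ev_nonneg fun _ => Fa_nonneg _ _ _ _ _ _ _ _

lemma Mt_le_one (A : (Fin N → G) → (Fin N → G) → μ) (σ τ : Equiv.Perm (Fin N)) (t : ℕ) (a : μ)
    (v : Fin N → G) : Mt A σ τ t a v ≤ 1 := by
  unfold Mt
  have h : ∀ y : Fin N → G, ev (fun x => Fa A σ τ t a v x y) ≤ 1 := fun y => by
    have := ev_mono (fun x => Fa_le_one A σ τ t a v x y)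
    rwa [ev_const] at this
  have := ev_mono h
  rwa [ev_const] at this

lemma sum_Mt (A : (Fin N → G) → (Fin N → G) → μ) (σ τ : Equiv.Perm (Fin N)) (t : ℕ)
    (v : Fin N → G) : ∑ a, Mt A σ τ t a v = 1 := by
  unfold Mt
  rw [← ev_sum]
  have : ∀ y : Fin N → G, ∑ a, ev (fun x => Fa A σ τ t a v x y) = 1 := by
    intro y
    rw [← ev_sum]
    have e : ∀ x : Fin N → G, ∑ a, Fa A σ τ t a v x y = 1 := by
      intro x
      unfold Fa
      simp
    simp only [e]
    exact ev_const _
  simp only [this]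
  exact ev_const _

lemma comp_succ (σ τ : Equiv.Perm (Fin N)) (t : Fin N) (v x y : Fin N → G) (d : G) :
    comp σ τ (t + 1) (Function.update v t d) x y =
      comp σ τ t v x (Function.update y (τ t) (x (σ t) + d)) := by
  funext j
  unfold comp
  by_cases h1 : τ.symm j = t
  · have hj : j = τ t := by rw [← h1]; simp
    subst hj
    simp
  · have hj : j ≠ τ t := by
      intro h
      exact h1 (by rw [h]; simp)
    have h2 : ((τ.symm j : Fin N) : ℕ) ≠ t := fun h => h1 (Fin.ext h)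
    by_cases h3 : ((τ.symm j : Fin N) : ℕ) < t
    · rw [if_pos (by omega), if_pos h3, Function.update_of_ne h1]
    · rw [if_neg (by omega), if_neg h3, Function.update_of_ne hj]

lemma Mt_succ (A : (Fin N → G) → (Fin N → G) → μ) (σ τ : Equiv.Perm (Fin N)) (t : Fin N) (a : μ)
    (v : Fin N → G) (d : G) :
    Mt A σ τ (t + 1) a (Function.update v t d) =
      Fintype.card G * ev (fun y => ev (fun x =>
        if y (τ t) = x (σ t) + d then Fa A σ τ t a v x y else 0)) := by
  unfold Mt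
  rw [ev_comm, ev_comm (fun y x => if y (τ t) = x (σ t) + d then Fa A σ τ t a v x y else 0), ← ev_mul]
  refine ev_congr fun x => ?_
  rw [← ev_fix (τ t) (x (σ t) + d) (fun y => Fa A σ τ t a v x y)]
  refine ev_congr fun y => ?_
  unfold Fa
  rw [comp_succ]

lemma gi_sum (z w d : G) : ∑ c, gi c z * gi (c + d) w =
    (if w = z + d then 1 else 0) - 1 / (Fintype.card G : ℝ) := by
  have hq : (Fintype.card G : ℝ) ≠ 0 := by exact_mod_cast Fintype.card_ne_zero
  have e : ∀ c : G, gi c z * gi (c + d) w = (if z = c then (if w = c + d then 1 else 0) else 0)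
      - (if z = c then 1 / (Fintype.card G : ℝ) else 0) - (if w = c + d then 1 / (Fintype.card G : ℝ) else 0)
      + 1 / (Fintype.card G : ℝ) * (1 / (Fintype.card G : ℝ)) := by
    intro c
    unfold gi
    split_ifs <;> ring
  simp only [e, sum_add_distrib, sum_sub_distrib, sum_const, card_univ, nsmul_eq_mul]
  have h1 : ∑ c : G, (if w = c + d then 1 / (Fintype.card G : ℝ) else 0) = 1 / (Fintype.card G : ℝ) := by
    rw [sum_eq_single (w - d)]
    · simp
    · intro c _ hc
      rw [if_neg]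
      intro h
      exact hc (by rw [h]; abel)
    · simp
  rw [h1]
  simp only [sum_ite_eq, mem_univ, if_true]
  field_simp
  ring

/-- coefficient of the second level -/
noncomputable def cf (F : (Fin N → G) → (Fin N → G) → ℝ) (i j : Fin N) (c c' : G) : ℝ :=
  ev (fun y => ev (fun x => F x y * gi c (x i)) * gi c' (y j))

/-- sum of the squares of the coefficients for one pair -/
noncomputable def Tp (F : (Fin N → G) → (Fin N → G) → ℝ) (i j : Fin N) : ℝ :=
  ∑ c, ∑ c', (cf F i j c c') ^ 2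

lemma Tp_nonneg (F : (Fin N → G) → (Fin N → G) → ℝ) (i j : Fin N) : 0 ≤ Tp F i j :=
  sum_nonneg fun _ _ => sum_nonneg fun _ _ => sq_nonneg _

lemma cond_sub (F : (Fin N → G) → (Fin N → G) → ℝ) (i j : Fin N) (d : G) :
    ev (fun y : Fin N → G => ev (fun x : Fin N → G => if y j = x i + d then F x y else 0)) -
      ev (fun y => ev (fun x => F x y)) / Fintype.card G = ∑ c, cf F i j c (c + d) := by
  unfold cf
  rw [← ev_sum, ← ev_div, ← ev_sub]
  refine ev_congr fun y => ?_
  rw [← ev_div, ← ev_sub]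
  simp only [← ev_mul']
  rw [← ev_sum]
  refine ev_congr fun x => ?_
  have : ∀ c, F x y * gi c (x i) * gi (c + d) (y j) = F x y * (gi c (x i) * gi (c + d) (y j)) :=
    fun c => by ring
  simp only [this]
  rw [← mul_sum, gi_sum]
  split_ifs <;> ring

lemma Mt_diff (A : (Fin N → G) → (Fin N → G) → μ) (σ τ : Equiv.Perm (Fin N)) (t : Fin N) (a : μ)
    (v : Fin N → G) (d : G) :
    Mt A σ τ (t + 1) a (Function.update v t d) - Mt A σ τ t a v =
      Fintype.card G * ∑ c, cf (Fa A σ τ t a v) (σ t) (τ t) c (c + d) := by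
  have hq : (Fintype.card G : ℝ) ≠ 0 := by exact_mod_cast Fintype.card_ne_zero
  rw [Mt_succ, ← cond_sub]
  have : Mt A σ τ t a v = Fintype.card G * (ev (fun y => ev (fun x => Fa A σ τ t a v x y)) /
      Fintype.card G) := by
    rw [mul_div_cancel₀ _ hq]; rfl
  rw [this]
  ring

/-- the mean of the conditional probabilities -/
lemma Mt_mean (A : (Fin N → G) → (Fin N → G) → μ) (σ τ : Equiv.Perm (Fin N)) (t : Fin N) (a : μ)
    (v : Fin N → G) :
    ev (fun d => Mt A σ τ (t + 1) a (Function.update v t d)) = Mt A σ τ t a v := by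
  have hq : (Fintype.card G : ℝ) ≠ 0 := by exact_mod_cast Fintype.card_ne_zero
  simp only [Mt_succ]
  rw [ev_mul, ev_comm]
  unfold Mt
  rw [← ev_mul]
  refine ev_congr fun y => ?_
  rw [ev_comm, ← ev_mul]
  refine ev_congr fun x => ?_
  unfold ev
  have : ∑ d : G, (if y (τ t) = x (σ t) + d then Fa A σ τ t a v x y else 0) =
      Fa A σ τ t a v x y := by
    rw [sum_eq_single (y (τ t) - x (σ t))]
    · simp
    · intro c _ hc
      rw [if_neg]
      intro h
      exact hc (by rw [h]; abel)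
    · simp
  rw [this]
  field_simp

/-- one step -/
lemma step_sq (A : (Fin N → G) → (Fin N → G) → μ) (σ τ : Equiv.Perm (Fin N)) (t : Fin N) (a : μ)
    (v : Fin N → G) :
    ev (fun d => (Mt A σ τ (t + 1) a (Function.update v t d) - Mt A σ τ t a v) ^ 2) ≤
      (Fintype.card G : ℝ) ^ 2 * Tp (Fa A σ τ t a v) (σ t) (τ t) := by
  have hq : (0 : ℝ) < Fintype.card G := by exact_mod_cast Fintype.card_pos
  set F := Fa A σ τ t a v
  set i := σ t
  set j := τ t
  have e : ∀ d : G, (Mt A σ τ (t + 1) a (Function.update v t d) - Mt A σ τ t a v) ^ 2 ≤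
      (Fintype.card G : ℝ) ^ 3 * ∑ c, (cf F i j c (c + d)) ^ 2 := by
    intro d
    rw [Mt_diff, mul_pow]
    have := sq_sum_le_card_mul_sum_sq (s := (univ : Finset G)) (f := fun c => cf F i j c (c + d))
    rw [card_univ] at this
    calc (Fintype.card G : ℝ) ^ 2 * (∑ c, cf F i j c (c + d)) ^ 2
        ≤ (Fintype.card G : ℝ) ^ 2 * (Fintype.card G * ∑ c, (cf F i j c (c + d)) ^ 2) :=
          mul_le_mul_of_nonneg_left this (by positivity)
      _ = _ := by ring
  refine (ev_mono e).trans (le_of_eq ?_)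
  unfold ev Tp
  rw [← mul_sum, sum_comm]
  have : ∀ c : G, ∑ d, (cf F i j c (c + d)) ^ 2 = ∑ c', (cf F i j c c') ^ 2 := fun c =>
    Equiv.sum_comp (Equiv.addLeft c) (fun c' => (cf F i j c c') ^ 2)
  simp only [this]
  field_simp

/-- entropy of the message given the differences -/
noncomputable def Hh (A : (Fin N → G) → (Fin N → G) → μ) (σ τ : Equiv.Perm (Fin N)) (t : ℕ) : ℝ :=
  ev (fun v => ∑ a, Mt A σ τ t a v * Real.log (Mt A σ τ t a v))

/-- the bound for one step, as a function of the pair -/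
noncomputable def St (A : (Fin N → G) → (Fin N → G) → μ) (σ τ : Equiv.Perm (Fin N)) (t : ℕ)
    (i j : Fin N) : ℝ :=
  ev (fun v => ∑ a, Tp (Fa A σ τ t a v) i j / Mt A σ τ t a v)

lemma pw_log {P Q : ℝ} (hP0 : 0 ≤ P) (hP1 : P ≤ 1) (hQ0 : 0 ≤ Q) :
    P * Real.log P - P * Real.log Q ≤ (P - Q) ^ 2 / Q + (Q / Q) * (P - Q) := by
  rcases hP0.eq_or_lt with h | h
  · rw [← h]
    rcases hQ0.eq_or_lt with h2 | h2
    · rw [← h2]; simp
    · rw [div_self h2.ne', zero_sub, neg_sq, sq, mul_div_assoc, div_self h2.ne']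
      simp
  · rcases hQ0.eq_or_lt with h2 | h2
    · rw [← h2]
      have := Real.log_nonpos hP0 hP1
      simp only [Real.log_zero, mul_zero, sub_zero, div_zero, zero_mul, add_zero]
      nlinarith
    · have h3 := Real.log_le_sub_one_of_pos (div_pos h h2)
      rw [Real.log_div h.ne' h2.ne'] at h3
      have h4 := mul_le_mul_of_nonneg_left h3 hP0
      have h5 : (P - Q) ^ 2 / Q + (Q / Q) * (P - Q) = P * (P / Q - 1) := by
        field_simp
        ring
      rw [h5]
      linarith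

lemma Hh_step (A : (Fin N → G) → (Fin N → G) → μ) (σ τ : Equiv.Perm (Fin N)) (t : Fin N) :
    Hh A σ τ (t + 1) - Hh A σ τ t ≤ (Fintype.card G : ℝ) ^ 2 * St A σ τ t (σ t) (τ t) := by
  unfold Hh St
  rw [ev_update t (fun v => ∑ a, Mt A σ τ (t + 1) a v * Real.log (Mt A σ τ (t + 1) a v)),
    ← ev_sub, ← ev_mul]
  refine ev_mono fun v => ?_
  rw [ev_sum, ← sum_sub_distrib, mul_sum]
  refine sum_le_sum fun a _ => ?_
  set Q := Mt A σ τ t a v with hQ
  set P : G → ℝ := fun d => Mt A σ τ (t + 1) a (Function.update v t d) with hP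
  have hmean : ev P = Q := Mt_mean A σ τ t a v
  have hQ0 : 0 ≤ Q := Mt_nonneg _ _ _ _ _ _
  have h1 : ev (fun d => P d * Real.log (P d)) - Q * Real.log Q =
      ev (fun d => P d * Real.log (P d) - P d * Real.log Q) := by
    rw [ev_sub, ev_mul', hmean]
  have h2 : ev (fun d => P d * Real.log (P d) - P d * Real.log Q) ≤
      ev (fun d => (P d - Q) ^ 2 / Q + (Q / Q) * (P d - Q)) :=
    ev_mono fun d => pw_log (Mt_nonneg _ _ _ _ _ _) (Mt_le_one _ _ _ _ _ _) hQ0
  have h3 : ev (fun d => (P d - Q) ^ 2 / Q + (Q / Q) * (P d - Q)) = ev (fun d => (P d - Q) ^ 2) / Q := by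
    rw [ev_add, ev_div, ev_mul, ev_sub, ev_const, hmean]
    ring
  have h4 := step_sq A σ τ t a v
  calc ev (fun d => P d * Real.log (P d)) - Q * Real.log Q
      ≤ ev (fun d => (P d - Q) ^ 2) / Q := by rw [h1, ← h3]; exact h2
    _ ≤ ((Fintype.card G : ℝ) ^ 2 * Tp (Fa A σ τ t a v) (σ t) (τ t)) / Q :=
        div_le_div_of_nonneg_right h4 hQ0
    _ = _ := by ring

/-- swapping later pairs does not change the conditions -/
lemma comp_swap (σ τ : Equiv.Perm (Fin N)) (t : Fin N) (r r' : Fin N) (hr : t ≤ r) (hr' : t ≤ r')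
    (v x y : Fin N → G) :
    comp (σ * Equiv.swap t r) (τ * Equiv.swap t r') t v x y = comp σ τ t v x y := by
  funext j
  unfold comp
  have e : (τ * Equiv.swap t r').symm j = Equiv.swap t r' (τ.symm j) := by
    rw [Equiv.symm_apply_eq]
    simp [Equiv.Perm.mul_apply]
  rw [e]
  by_cases h : ((τ.symm j : Fin N) : ℕ) < t
  · have n1 : τ.symm j ≠ t := fun h' => by rw [h'] at h; exact lt_irrefl _ h
    have n2 : τ.symm j ≠ r' := fun h' => by
      rw [h'] at h
      exact absurd h (not_lt.2 hr')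
    have n3 : τ.symm j ≠ r := fun h' => by
      rw [h'] at h
      exact absurd h (not_lt.2 hr)
    rw [Equiv.swap_apply_of_ne_of_ne n1 n2, if_pos h, if_pos h]
    simp only [Equiv.Perm.mul_apply]
    rw [Equiv.swap_apply_of_ne_of_ne n1 n3]
  · rw [if_neg h, if_neg]
    by_cases n1 : τ.symm j = t
    · rw [n1, Equiv.swap_apply_left]
      exact not_lt.2 hr'
    · by_cases n2 : τ.symm j = r'
      · rw [n2, Equiv.swap_apply_right]
        exact lt_irrefl _
      · rw [Equiv.swap_apply_of_ne_of_ne n1 n2]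
        exact h

lemma Fa_swap (A : (Fin N → G) → (Fin N → G) → μ) (σ τ : Equiv.Perm (Fin N)) (t r r' : Fin N)
    (hr : t ≤ r) (hr' : t ≤ r') (a : μ) (v : Fin N → G) :
    Fa A (σ * Equiv.swap t r) (τ * Equiv.swap t r') t a v = Fa A σ τ t a v := by
  funext x y
  unfold Fa
  rw [comp_swap σ τ t r r' hr hr']

lemma St_swap (A : (Fin N → G) → (Fin N → G) → μ) (σ τ : Equiv.Perm (Fin N)) (t r r' : Fin N)
    (hr : t ≤ r) (hr' : t ≤ r') (i j : Fin N) :
    St A (σ * Equiv.swap t r) (τ * Equiv.swap t r') t i j = St A σ τ t i j := by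
  unfold St Mt
  simp only [Fa_swap A σ τ t r r' hr hr']

lemma St_nonneg (A : (Fin N → G) → (Fin N → G) → μ) (σ τ : Equiv.Perm (Fin N)) (t : ℕ)
    (i j : Fin N) : 0 ≤ St A σ τ t i j :=
  ev_nonneg fun _ => sum_nonneg fun _ _ => div_nonneg (Tp_nonneg _ _ _) (Mt_nonneg _ _ _ _ _ _)

/-- average over the matchings -/
lemma St_ev (A : (Fin N → G) → (Fin N → G) → μ) (t : Fin N) :
    ((N : ℝ) - t) ^ 2 * ev (fun σ : Equiv.Perm (Fin N) => ev (fun τ : Equiv.Perm (Fin N) =>
        St A σ τ t (σ t) (τ t))) ≤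
      ev (fun σ : Equiv.Perm (Fin N) => ev (fun τ : Equiv.Perm (Fin N) =>
        ∑ i, ∑ j, St A σ τ t i j)) := by
  have h1 : ∀ r ∈ Finset.Ici t, ∀ r' ∈ Finset.Ici t,
      ev (fun σ : Equiv.Perm (Fin N) => ev (fun τ : Equiv.Perm (Fin N) =>
        St A σ τ t (σ t) (τ t))) =
      ev (fun σ : Equiv.Perm (Fin N) => ev (fun τ : Equiv.Perm (Fin N) =>
        St A σ τ t (σ r) (τ r'))) := by
    intro r hr r' hr'
    rw [← ev_equiv (Equiv.mulRight (Equiv.swap t r))
      (fun σ => ev (fun τ : Equiv.Perm (Fin N) => St A σ τ t (σ t) (τ t)))]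
    refine ev_congr fun σ => ?_
    rw [← ev_equiv (Equiv.mulRight (Equiv.swap t r')) (fun τ : Equiv.Perm (Fin N) =>
      St A (Equiv.mulRight (Equiv.swap t r) σ) τ t ((Equiv.mulRight (Equiv.swap t r) σ) t) (τ t))]
    refine ev_congr fun τ => ?_
    simp only [Equiv.coe_mulRight]
    rw [St_swap A σ τ t r r' (Finset.mem_Ici.1 hr) (Finset.mem_Ici.1 hr')]
    simp [Equiv.Perm.mul_apply]
  set X := ev (fun σ : Equiv.Perm (Fin N) => ev (fun τ : Equiv.Perm (Fin N) =>
        St A σ τ t (σ t) (τ t))) with hX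
  have h2 : ((Finset.Ici t).card : ℝ) = (N : ℝ) - t := by
    rw [Fin.card_Ici, Nat.cast_sub t.2.le]
  have h3 : ((N : ℝ) - t) ^ 2 * X = ∑ r ∈ Finset.Ici t, ∑ r' ∈ Finset.Ici t,
      ev (fun σ : Equiv.Perm (Fin N) => ev (fun τ : Equiv.Perm (Fin N) =>
        St A σ τ t (σ r) (τ r'))) := by
    rw [← h2]
    calc ((Finset.Ici t).card : ℝ) ^ 2 * X = ∑ r ∈ Finset.Ici t, ∑ r' ∈ Finset.Ici t, X := by
          rw [sum_const, sum_const, nsmul_eq_mul, nsmul_eq_mul]; ring
      _ = _ := sum_congr rfl fun r hr => sum_congr rfl fun r' hr' => h1 r hr r' hr'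
  rw [h3]
  simp only [← ev_sum]
  refine ev_mono fun σ => ev_mono fun τ => ?_
  calc ∑ r ∈ Finset.Ici t, ∑ r' ∈ Finset.Ici t, St A σ τ t (σ r) (τ r')
      ≤ ∑ r, ∑ r', St A σ τ t (σ r) (τ r') := by
        refine (sum_le_sum fun r _ => sum_le_sum_of_subset_of_nonneg (subset_univ _)
          fun r' _ _ => St_nonneg _ _ _ _ _ _).trans ?_
        exact sum_le_sum_of_subset_of_nonneg (subset_univ _)
          fun r _ _ => sum_nonneg fun r' _ => St_nonneg _ _ _ _ _ _
    _ = ∑ i, ∑ j, St A σ τ t i j := by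
        rw [Equiv.sum_comp σ (fun i => ∑ r', St A σ τ t i (τ r'))]
        exact sum_congr rfl fun i _ => Equiv.sum_comp τ (fun j => St A σ τ t i j)

end

end Pool.Agent.V7H89.SX
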