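import Mathlib

set_option autoImplicit false
set_option linter.unusedSectionVars false

/-!
# Averages over finite types, relative entropy, Hellinger distance
-/

namespace Pool.Agent.V7H89.SX

open Finset
open scoped Classical

/-- the average of a real function on a finite type -/
noncomputable def ev {α : Type*} [Fintype α] (f : α → ℝ) : ℝ := (∑ a, f a) / Fintype.card α

section basic

variable {α β γ : Type*} [Fintype α] [Fintype β] [Fintype γ]

lemma ev_congr {f g : α → ℝ} (h : ∀ a, f a = g a) : ev f = ev g := by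
  have : f = g := funext h
  rw [this]

lemma ev_add (f g : α → ℝ) : ev (fun a => f a + g a) = ev f + ev g := by
  unfold ev
  rw [sum_add_distrib, add_div]

lemma ev_sub (f g : α → ℝ) : ev (fun a => f a - g a) = ev f - ev g := by
  unfold ev
  rw [sum_sub_distrib, sub_div]

lemma ev_mul (c : ℝ) (f : α → ℝ) : ev (fun a => c * f a) = c * ev f := by
  unfold ev
  rw [← mul_sum, mul_div_assoc]

lemma ev_mul' (c : ℝ) (f : α → ℝ) : ev (fun a => f a * c) = ev f * c := by
  rw [mul_comm (ev f) c, ← ev_mul]
  exact ev_congr fun a => mul_comm _ _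

lemma ev_div (c : ℝ) (f : α → ℝ) : ev (fun a => f a / c) = ev f / c := by
  simp only [div_eq_mul_inv]
  exact ev_mul' _ _

lemma ev_const [Nonempty α] (c : ℝ) : ev (fun _ : α => c) = c := by
  unfold ev
  rw [sum_const, nsmul_eq_mul, card_univ]
  have : (Fintype.card α : ℝ) ≠ 0 := by
    exact_mod_cast Fintype.card_ne_zero
  field_simp

lemma ev_zero : ev (fun _ : α => (0 : ℝ)) = 0 := by
  unfold ev
  simp

lemma ev_mono {f g : α → ℝ} (h : ∀ a, f a ≤ g a) : ev f ≤ ev g := by
  unfold ev
  exact div_le_div_of_nonneg_right (sum_le_sum fun a _ => h a) (Nat.cast_nonneg _)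

lemma ev_nonneg {f : α → ℝ} (h : ∀ a, 0 ≤ f a) : 0 ≤ ev f := by
  unfold ev
  exact div_nonneg (sum_nonneg fun a _ => h a) (Nat.cast_nonneg _)

lemma ev_abs (f : α → ℝ) : |ev f| ≤ ev (fun a => |f a|) := by
  unfold ev
  rw [abs_div, abs_of_nonneg (Nat.cast_nonneg (α := ℝ) _)]
  exact div_le_div_of_nonneg_right (abs_sum_le_sum_abs _ _) (Nat.cast_nonneg _)

lemma ev_comm (f : α → β → ℝ) : ev (fun a => ev (f a)) = ev (fun b => ev (fun a => f a b)) := by
  unfold ev
  rw [← sum_div, ← sum_div, sum_comm, div_right_comm]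

lemma ev_sum (s : Finset γ) (f : α → γ → ℝ) :
    ev (fun a => ∑ c ∈ s, f a c) = ∑ c ∈ s, ev (fun a => f a c) := by
  unfold ev
  rw [sum_comm, sum_div]

lemma ev_equiv (e : α ≃ β) (f : β → ℝ) : ev (fun a => f (e a)) = ev f := by
  unfold ev
  rw [Fintype.card_congr e, e.sum_comp]

lemma ev_prod (f : α × β → ℝ) : ev f = ev (fun a => ev (fun b => f (a, b))) := by
  unfold ev
  rw [← sum_div, Fintype.sum_prod_type, Fintype.card_prod, Nat.cast_mul, div_div, mul_comm (Fintype.card α : ℝ)]

/-- Cauchy-Schwarz -/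
lemma ev_sq_le (f : α → ℝ) : (ev f) ^ 2 ≤ ev (fun a => f a ^ 2) := by
  unfold ev
  rcases isEmpty_or_nonempty α with h | h
  · simp
  have hc : (0 : ℝ) < Fintype.card α := by exact_mod_cast Fintype.card_pos
  rw [div_pow, div_le_div_iff₀ (by positivity) hc]
  have h1 := sq_sum_le_card_mul_sum_sq (s := (univ : Finset α)) (f := f)
  rw [card_univ] at h1
  nlinarith [h1]

/-- average over functions: one value may be averaged separately -/
lemma ev_update [DecidableEq α] (a : α) (h : (α → β) → ℝ) :
    ev h = ev (fun f : α → β => ev (fun z : β => h (Function.update f a z))) := by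
  unfold ev
  rcases isEmpty_or_nonempty β with hb | hb
  · have : Nonempty α := ⟨a⟩
    simp
  have hq : (Fintype.card β : ℝ) ≠ 0 := by exact_mod_cast Fintype.card_ne_zero
  rw [← sum_div]
  have key : ∑ f : α → β, ∑ z : β, h (Function.update f a z) = Fintype.card β * ∑ f, h f := by
    have e1 : ∀ f : α → β, (∑ z : β, h (Function.update f a z)) =
        ∑ z : β, h (Function.update f a z) := fun f => rfl
    calc ∑ f : α → β, ∑ z : β, h (Function.update f a z)
        = ∑ p : (α → β) × β, h (Function.update p.1 a p.2) := by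
          rw [Fintype.sum_prod_type]
      _ = ∑ p : (α → β) × β, h p.1 := by
          refine Fintype.sum_equiv
            (⟨fun p => (Function.update p.1 a p.2, p.1 a), fun p => (Function.update p.1 a p.2, p.1 a),
              ?_, ?_⟩ : (α → β) × β ≃ (α → β) × β) _ _ ?_
          · rintro ⟨f, z⟩
            simp
          · rintro ⟨f, z⟩
            simp
          · rintro ⟨f, z⟩
            simp
      _ = Fintype.card β * ∑ f, h f := by
          rw [Fintype.sum_prod_type]
          simp [mul_sum]
  rw [key]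
  field_simp

/-- average over a function with one prescribed value -/
lemma ev_fix [DecidableEq α] [DecidableEq β] (a : α) (z : β) (h : (α → β) → ℝ) :
    ev (fun f : α → β => h (Function.update f a z)) =
      Fintype.card β * ev (fun f : α → β => if f a = z then h f else 0) := by
  have : Nonempty β := ⟨z⟩
  have hq : (Fintype.card β : ℝ) ≠ 0 := by exact_mod_cast Fintype.card_ne_zero
  rw [ev_update a (fun f : α → β => if f a = z then h f else 0), ← ev_mul]
  refine ev_congr fun f => ?_
  have : ∀ w : β, (if Function.update f a w a = z then h (Function.update f a w) else 0) =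
      if w = z then h (Function.update f a z) else 0 := by
    intro w
    simp only [Function.update_self]
    split_ifs with hw
    · rw [hw]
    · rfl
  simp only [this]
  unfold ev
  rw [sum_ite_eq' univ z (fun _ => h (Function.update f a z)), if_pos (mem_univ _)]
  field_simp

lemma ev_pi [DecidableEq α] (p : α → β → ℝ) :
    ev (fun f : α → β => ∏ a, p a (f a)) = ∏ a, ev (p a) := by
  unfold ev
  rw [prod_div_distrib, prod_univ_sum, Fintype.piFinset_univ, Fintype.card_fun, prod_const, card_univ]
  push_cast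
  rfl

end basic

/-- The square of the `ℓ¹` distance is at most four times the relative entropy. -/
theorem hell {α : Type*} [Fintype α] (P Q : α → ℝ) (hP : ∀ a, 0 ≤ P a) (hQ : ∀ a, 0 ≤ Q a)
    (h1 : ∑ a, P a = 1) (h2 : ∑ a, Q a = 1) (hac : ∀ a, Q a = 0 → P a = 0) :
    (∑ a, |P a - Q a|) ^ 2 ≤ 4 * ∑ a, P a * Real.log (P a / Q a) := by
  have hs : ∀ a, |P a - Q a| = |√(P a) - √(Q a)| * (√(P a) + √(Q a)) := by
    intro a
    have e : P a - Q a = (√(P a) - √(Q a)) * (√(P a) + √(Q a)) := by
      have := Real.sq_sqrt (hP a)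
      have := Real.sq_sqrt (hQ a)
      nlinarith
    rw [e, abs_mul, abs_of_nonneg (add_nonneg (Real.sqrt_nonneg (P a)) (Real.sqrt_nonneg (Q a)))]
  have hcs : (∑ a, |P a - Q a|) ^ 2 ≤
      (∑ a, (√(P a) - √(Q a)) ^ 2) * ∑ a, (√(P a) + √(Q a)) ^ 2 := by
    simp only [hs]
    have := sum_mul_sq_le_sq_mul_sq univ (fun a => |√(P a) - √(Q a)|) (fun a => √(P a) + √(Q a))
    simpa [sq_abs] using this
  have hB : ∑ a, (√(P a) + √(Q a)) ^ 2 ≤ 4 := by
    have : ∀ a, (√(P a) + √(Q a)) ^ 2 ≤ 2 * P a + 2 * Q a := by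
      intro a
      have := Real.sq_sqrt (hP a)
      have := Real.sq_sqrt (hQ a)
      nlinarith [sq_nonneg (√(P a) - √(Q a))]
    calc ∑ a, (√(P a) + √(Q a)) ^ 2 ≤ ∑ a, (2 * P a + 2 * Q a) := sum_le_sum fun a _ => this a
      _ = 4 := by rw [sum_add_distrib, ← mul_sum, ← mul_sum, h1, h2]; norm_num
  have hA : ∑ a, (√(P a) - √(Q a)) ^ 2 ≤ ∑ a, P a * Real.log (P a / Q a) := by
    have e : ∀ a, (√(P a) - √(Q a)) ^ 2 ≤ P a * Real.log (P a / Q a) - P a + Q a := by
      intro a
      rcases (hP a).eq_or_lt with h0 | h0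
      · rw [← h0]
        simp [Real.sq_sqrt (hQ a)]
      · have hq : 0 < Q a := by
          rcases (hQ a).eq_or_lt with h | h
          · rw [hac a h.symm] at h0
            exact absurd h0 (lt_irrefl _)
          · exact h
        have hsp : 0 < √(P a) := Real.sqrt_pos.2 h0
        have hsq : 0 < √(Q a) := Real.sqrt_pos.2 hq
        have hl : Real.log (P a / Q a) = -2 * Real.log (√(Q a) / √(P a)) := by
          rw [Real.log_div h0.ne' hq.ne', Real.log_div hsq.ne' hsp.ne', Real.log_sqrt (hQ a),
            Real.log_sqrt (hP a)]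
          ring
        have hle := Real.log_le_sub_one_of_pos (div_pos hsq hsp)
        have h3 : P a * (√(Q a) / √(P a)) = √(P a) * √(Q a) := by
          rw [mul_div_assoc', div_eq_iff hsp.ne']
          have := Real.mul_self_sqrt (hP a)
          calc P a * √(Q a) = (√(P a) * √(P a)) * √(Q a) := by rw [this]
            _ = _ := by ring
        have h4 : P a * (2 - 2 * (√(Q a) / √(P a))) ≤ P a * Real.log (P a / Q a) := by
          refine mul_le_mul_of_nonneg_left ?_ h0.le
          rw [hl]
          linarith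
        have h5 : P a * (2 - 2 * (√(Q a) / √(P a))) = 2 * P a - 2 * (√(P a) * √(Q a)) := by
          rw [← h3]; ring
        have h6 := Real.sq_sqrt (hP a)
        have h7 := Real.sq_sqrt (hQ a)
        nlinarith
    calc ∑ a, (√(P a) - √(Q a)) ^ 2 ≤ ∑ a, (P a * Real.log (P a / Q a) - P a + Q a) :=
          sum_le_sum fun a _ => e a
      _ = ∑ a, P a * Real.log (P a / Q a) := by
          rw [sum_add_distrib, sum_sub_distrib, h1, h2]; ring
  have hA0 : 0 ≤ ∑ a, (√(P a) - √(Q a)) ^ 2 := sum_nonneg fun a _ => sq_nonneg _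
  calc (∑ a, |P a - Q a|) ^ 2 ≤ _ := hcs
    _ ≤ (∑ a, (√(P a) - √(Q a)) ^ 2) * 4 := mul_le_mul_of_nonneg_left hB hA0
    _ ≤ (∑ a, P a * Real.log (P a / Q a)) * 4 := mul_le_mul_of_nonneg_right hA (by norm_num)
    _ = _ := by ring

/-- a distribution on `G` and the uniform one -/
theorem hell_unif {G : Type*} [Fintype G] [Nonempty G] (p : G → ℝ) (hp : ∀ c, 0 ≤ p c)
    (h1 : ∑ c, p c = 1) :
    ∑ c, (p c - 1 / Fintype.card G) ^ 2 ≤ 4 * ∑ c, p c * Real.log (Fintype.card G * p c) := by
  have hq : (0 : ℝ) < Fintype.card G := by exact_mod_cast Fintype.card_pos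
  have h := hell p (fun _ => 1 / (Fintype.card G : ℝ)) hp (fun _ => by positivity) h1
    (by rw [sum_const, card_univ, nsmul_eq_mul]; field_simp)
    (fun a ha => absurd ha (by positivity))
  have h2 : ∑ c, (p c - 1 / Fintype.card G) ^ 2 ≤ (∑ a, |p a - 1 / Fintype.card G|) ^ 2 := by
    have := sum_sq_le_sq_sum_of_nonneg (s := (univ : Finset G)) (f := fun a => |p a - 1 / (Fintype.card G : ℝ)|)
      (fun a _ => abs_nonneg _)
    simpa [sq_abs] using this
  refine h2.trans (h.trans (le_of_eq ?_))
  congr 1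
  refine sum_congr rfl fun c _ => ?_
  congr 2
  field_simp

end Pool.Agent.V7H89.SX
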