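import Pool.Agent.V7H89.SX.Mg

set_option autoImplicit false
set_option linter.unusedSectionVars false

/-!
# The planted set, and the choice of the constants
-/

namespace Pool.Agent.V7H89.SX

open Finset Filter
open scoped Classical

section

variable {k N : ℕ} {G : Type} [AddCommGroup G] [Fintype G] [DecidableEq G]
variable {V : Type} [Fintype V] [DecidableEq V]

/-- left class of a player -/
def lf (p : Fin k × Fin k) : Fin k ⊕ Fin k := Sum.inl p.1

/-- right class of a player -/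
def rf (p : Fin k × Fin k) : Fin k ⊕ Fin k := Sum.inr p.2

/-- the planted set -/
noncomputable def PS (e : W k N G ≃ V) (Z : Fin k ⊕ Fin k → Fin N → G) : Finset V :=
  (univ.image fun x : Fin k × Fin N => e (Sum.inl (x.1, x.2, Z (Sum.inl x.1) x.2))) ∪
  (univ.image fun x : Fin k × Fin N => e (Sum.inr (x.1, x.2, Z (Sum.inr x.1) x.2)))

lemma PS_card (e : W k N G ≃ V) (Z : Fin k ⊕ Fin k → Fin N → G) :
    (PS e Z).card = 2 * (k * N) := by
  unfold PS
  rw [card_union_of_disjoint, card_image_of_injective, card_image_of_injective, card_univ,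
    Fintype.card_prod, Fintype.card_fin, Fintype.card_fin]
  · ring
  · intro x y h
    have := e.injective h
    simp only [Sum.inr.injEq, Prod.mk.injEq] at this
    exact Prod.ext this.1 this.2.1
  · intro x y h
    have := e.injective h
    simp only [Sum.inl.injEq, Prod.mk.injEq] at this
    exact Prod.ext this.1 this.2.1
  · rw [Finset.disjoint_left]
    intro z hz hz'
    simp only [mem_image, mem_univ, true_and] at hz hz'
    obtain ⟨x, rfl⟩ := hz
    obtain ⟨y, hy⟩ := hz'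
    exact absurd (e.injective hy) (by simp)

lemma PS_inn (e : W k N G ≃ V) (Z : Fin k ⊕ Fin k → Fin N → G) (T : ℕ) (hT : T ≤ N)
    (ρ : Fin k × Fin k → Inp N G) :
    (k : ℝ) ^ 2 * T ≤ inn e (plant T lf rf Z ρ) (PS e Z) := by
  unfold inn
  rw [Fintype.sum_prod_type]
  have h1 : ∀ p : Fin k × Fin k, (T : ℝ) ≤ ∑ x : Fin N × G,
      (if le e (plant T lf rf Z ρ) (p, x) ∈ PS e Z then (1 : ℝ) else 0) *
      (if ri e (plant T lf rf Z ρ) (p, x) ∈ PS e Z then 1 else 0) := by
    intro p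
    rw [Fintype.sum_prod_type]
    have h2 : ∀ t : Fin N, (if (t : ℕ) < T then (1 : ℝ) else 0) ≤ ∑ g : G,
        (if le e (plant T lf rf Z ρ) (p, t, g) ∈ PS e Z then (1 : ℝ) else 0) *
        (if ri e (plant T lf rf Z ρ) (p, t, g) ∈ PS e Z then 1 else 0) := by
      intro t
      split_ifs with ht
      · refine le_trans ?_ (single_le_sum (f := fun g : G =>
          (if le e (plant T lf rf Z ρ) (p, t, g) ∈ PS e Z then (1 : ℝ) else 0) *
          (if ri e (plant T lf rf Z ρ) (p, t, g) ∈ PS e Z then 1 else 0))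
          (fun g _ => by split_ifs <;> norm_num)
          (mem_univ (Z (Sum.inl p.1) ((ρ p).1 t))))
        have m1 : le e (plant T lf rf Z ρ) (p, t, Z (Sum.inl p.1) ((ρ p).1 t)) ∈ PS e Z := by
          unfold PS le
          rw [mem_union]
          left
          rw [mem_image]
          exact ⟨(p.1, (ρ p).1 t), mem_univ _, rfl⟩
        have m2 : ri e (plant T lf rf Z ρ) (p, t, Z (Sum.inl p.1) ((ρ p).1 t)) ∈ PS e Z := by
          unfold PS ri
          rw [mem_union]
          right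
          rw [mem_image]
          refine ⟨(p.2, (ρ p).2.1 t), mem_univ _, ?_⟩
          unfold plant mixf lf rf
          simp only [ht, if_true]
          congr 4
          abel
        rw [if_pos m1, if_pos m2]
        norm_num
      · exact sum_nonneg fun g _ => by split_ifs <;> norm_num
    refine le_trans ?_ (sum_le_sum fun t _ => h2 t)
    rw [sum_boole]
    have : (univ.filter fun t : Fin N => (t : ℕ) < T).card = T := by
      have h3 : (univ.filter fun t : Fin N => (t : ℕ) < T).card =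
          ((univ.filter fun t : Fin N => (t : ℕ) < T).image (fun t : Fin N => (t : ℕ))).card :=
        (card_image_of_injective _ Fin.val_injective).symm
      rw [h3]
      have h4 : (univ.filter fun t : Fin N => (t : ℕ) < T).image (fun t : Fin N => (t : ℕ)) =
          range T := by
        ext x
        simp only [mem_image, mem_filter, mem_univ, true_and, mem_range]
        constructor
        · rintro ⟨t, ht, rfl⟩
          exact ht
        · intro hx
          exact ⟨⟨x, by omega⟩, hx, rfl⟩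
      rw [h4, card_range]
    rw [this]
  calc (k : ℝ) ^ 2 * T = ∑ _p : Fin k × Fin k, (T : ℝ) := by
        rw [sum_const, card_univ, Fintype.card_prod, Fintype.card_fin, nsmul_eq_mul]
        push_cast
        ring
    _ ≤ _ := sum_le_sum fun p _ => h1 p

end

/-- for large `N` the error terms are small -/
lemma ev_small (a b : ℝ) (hb : 0 < b) (q : ℝ) : ∀ᶠ N : ℕ in atTop,
    a * ((32 + (Real.log N) ^ 2 + q) / N) ≤ b := by
  have h1 : Tendsto (fun x : ℝ => (Real.log x) ^ 2 / x) atTop (nhds 0) := by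
    have := Real.isLittleO_pow_log_id_atTop (n := 2)
    exact this.tendsto_div_nhds_zero
  have h2 : Tendsto (fun x : ℝ => (32 + q) / x) atTop (nhds 0) :=
    tendsto_const_nhds.div_atTop tendsto_id
  have h3 : Tendsto (fun x : ℝ => a * ((32 + q) / x + (Real.log x) ^ 2 / x)) atTop (nhds 0) := by
    have := (h2.add h1).const_mul a
    simpa using this
  have h4 := h3.comp tendsto_natCast_atTop_atTop
  have h5 := h4.eventually (eventually_le_nhds hb)
  filter_upwards [h5] with N hN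
  have e : a * ((32 + (Real.log N) ^ 2 + q) / N) = a * ((32 + q) / N + (Real.log N) ^ 2 / N) := by
    ring
  rw [e]
  exact hN

lemma bad_small {η : ℝ} {q k N : ℕ} (hη : 0 < η) (hq : 16 / η ≤ q)
    (hk : 4 * q * (2 * q + 1) / η ≤ k) (hN : 2 ≤ N) :
    2 * (k : ℝ) * N * q - η * k ^ 2 * N / (2 * q) + (N + 2) * (4 * k ^ 2 / (q : ℝ) ^ 2) ≤
      2 * (2 * q + 1) * k - k * N := by
  have hq0 : (0 : ℝ) < q := lt_of_lt_of_le (by positivity) hq
  have hk0 : (0 : ℝ) < k := lt_of_lt_of_le (by positivity) hk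
  have hNr : (2 : ℝ) ≤ N := by exact_mod_cast hN
  rw [div_le_iff₀ hη] at hq hk
  set u : ℝ := η * k ^ 2 / (4 * q) with hu
  have h1 : 4 * (k : ℝ) ^ 2 / (q : ℝ) ^ 2 ≤ u := by
    rw [hu, div_le_div_iff₀ (by positivity) (by positivity)]
    have : 16 * ((k : ℝ) ^ 2 * q) ≤ (q * η) * ((k : ℝ) ^ 2 * q) :=
      mul_le_mul_of_nonneg_right hq (by positivity)
    nlinarith
  have h2 : (2 * q + 1) * k ≤ u := by
    rw [hu, le_div_iff₀ (by positivity)]
    have := mul_le_mul_of_nonneg_right hk hk0.le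
    nlinarith
  have h3 : η * (k : ℝ) ^ 2 * N / (2 * q) = 2 * u * N := by
    rw [hu]; field_simp; ring
  rw [h3]
  have h4 : ((N : ℝ) + 2) * (4 * k ^ 2 / (q : ℝ) ^ 2) ≤ (N + 2) * u :=
    mul_le_mul_of_nonneg_left h1 (by linarith)
  have h5 : (2 * q + 1) * k * ((N : ℝ) - 2) ≤ u * (N - 2) :=
    mul_le_mul_of_nonneg_right h2 (by linarith)
  nlinarith

/-- the bound in `cell` for our constants -/
lemma eps_ok {η ε c : ℝ} {q k N T m : ℕ} (hη : 0 < η) (hq : 1 ≤ q) (hk : 1 ≤ k)
    (hε : 0 < ε) (hT : T ≤ N) (hN : 0 < N) (hNT : η * N / 2 ≤ (N : ℝ) - T)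
    (hc : c = ε * η / (200 * k * q ^ 2))
    (S : ℝ) (hS0 : 0 ≤ S) (hS : S ≤ m) (hm : (m : ℝ) < c * √(2 * k * q * N))
    (hlog : 1024 * (q : ℝ) ^ 2 / η ^ 2 * ((32 + (Real.log N) ^ 2 + q) / N) ≤ ε ^ 2 / 2) :
    4 * (T * ((q : ℝ) ^ 2 * Bc N q S / ((N : ℝ) - T) ^ 2)) ≤ ε ^ 2 := by
  have hNr : (0 : ℝ) < N := by exact_mod_cast hN
  have hqr : (1 : ℝ) ≤ q := by exact_mod_cast hq
  have hkr : (1 : ℝ) ≤ k := by exact_mod_cast hk
  have hTr : (T : ℝ) ≤ N := by exact_mod_cast hT
  have hc0 : 0 ≤ c := by rw [hc]; positivity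
  have hB := Bc_nonneg N q S
  have hpos : 0 < η * N / 2 := by positivity
  have h1 : 4 * (T * ((q : ℝ) ^ 2 * Bc N q S / ((N : ℝ) - T) ^ 2)) ≤
      4 * (N * ((q : ℝ) ^ 2 * Bc N q S / (η * N / 2) ^ 2)) := by
    have h2 : (η * N / 2) ^ 2 ≤ ((N : ℝ) - T) ^ 2 := pow_le_pow_left₀ hpos.le hNT 2
    have h3 : (q : ℝ) ^ 2 * Bc N q S / ((N : ℝ) - T) ^ 2 ≤ (q : ℝ) ^ 2 * Bc N q S / (η * N / 2) ^ 2 :=
      div_le_div_of_nonneg_left (by positivity) (by positivity) h2
    have h4 := mul_le_mul hTr h3 (by positivity) hNr.le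
    linarith
  refine h1.trans ?_
  have hm2 : (m : ℝ) ^ 2 ≤ c ^ 2 * (2 * k * q * N) := by
    have h5 : (m : ℝ) ^ 2 ≤ (c * √(2 * k * q * N)) ^ 2 := pow_le_pow_left₀ (Nat.cast_nonneg _) hm.le 2
    rwa [mul_pow, Real.sq_sqrt (by positivity)] at h5
  have hS2 : S ^ 2 ≤ c ^ 2 * (2 * k * q * N) := (pow_le_pow_left₀ hS0 hS 2).trans hm2
  have e1 : 4 * (N * ((q : ℝ) ^ 2 * Bc N q S / (η * N / 2) ^ 2)) =
      8192 * (q : ℝ) ^ 2 / η ^ 2 * (S ^ 2 / N) +
      1024 * (q : ℝ) ^ 2 / η ^ 2 * ((32 + (Real.log N) ^ 2 + q) / N) := by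
    unfold Bc
    field_simp
    ring
  rw [e1]
  have h6 : 8192 * (q : ℝ) ^ 2 / η ^ 2 * (S ^ 2 / N) ≤ ε ^ 2 / 2 := by
    have h7 : S ^ 2 / N ≤ c ^ 2 * (2 * k * q) := by
      rw [div_le_iff₀ hNr]
      linarith
    calc 8192 * (q : ℝ) ^ 2 / η ^ 2 * (S ^ 2 / N)
        ≤ 8192 * (q : ℝ) ^ 2 / η ^ 2 * (c ^ 2 * (2 * k * q)) :=
          mul_le_mul_of_nonneg_left h7 (by positivity)
      _ = 16384 / 40000 * ε ^ 2 * (1 / (k * q)) := by
          rw [hc]
          field_simp
          ring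
      _ ≤ 16384 / 40000 * ε ^ 2 * 1 := by
          refine mul_le_mul_of_nonneg_left ?_ (by positivity)
          rw [div_le_one (by positivity)]
          nlinarith
      _ ≤ ε ^ 2 / 2 := by nlinarith [sq_nonneg ε]
  linarith

end Pool.Agent.V7H89.SX
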