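import Pool.Agent.V7H89.SX.Hy

set_option autoImplicit false
set_option linter.unusedSectionVars false

/-!
# The graph of the labels
-/

namespace Pool.Agent.V7H89.SX

open Finset
open scoped Classical

/-- vertices: classes on the left and on the right, points, labels -/
abbrev W (k N : ℕ) (G : Type) : Type := (Fin k × Fin N × G) ⊕ (Fin k × Fin N × G)

section

variable {k N : ℕ} {G : Type} [AddCommGroup G] [Fintype G] [DecidableEq G]
variable {V : Type} [Fintype V] [DecidableEq V]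

/-- index of an edge: player, pair, label -/
abbrev Ix (k N : ℕ) (G : Type) : Type := (Fin k × Fin k) × Fin N × G

/-- left end of an edge -/
def le (e : W k N G ≃ V) (ρ : Fin k × Fin k → Inp N G) (x : Ix k N G) : V :=
  e (Sum.inl (x.1.1, (ρ x.1).1 x.2.1, x.2.2))

/-- right end of an edge -/
def ri (e : W k N G ≃ V) (ρ : Fin k × Fin k → Inp N G) (x : Ix k N G) : V :=
  e (Sum.inr (x.1.2, (ρ x.1).2.1 x.2.1, x.2.2 + (ρ x.1).2.2 x.2.1))

lemma le_ne_ri (e : W k N G ≃ V) (ρ : Fin k × Fin k → Inp N G) (x y : Ix k N G) :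
    le e ρ x ≠ ri e ρ y := by
  unfold le ri
  intro h
  exact absurd (e.injective h) (by simp)

lemma le_ri_inj (e : W k N G ≃ V) (ρ : Fin k × Fin k → Inp N G) {x y : Ix k N G}
    (h1 : le e ρ x = le e ρ y) (h2 : ri e ρ x = ri e ρ y) : x = y := by
  unfold le at h1
  unfold ri at h2
  have h1' := e.injective h1
  have h2' := e.injective h2
  simp only [Sum.inl.injEq, Sum.inr.injEq, Prod.mk.injEq] at h1' h2'
  obtain ⟨a1, a2, a3⟩ := h1'
  obtain ⟨b1, b2, b3⟩ := h2'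
  have hp : x.1 = y.1 := Prod.ext a1 b1
  rw [hp] at a2
  have ht : x.2.1 = y.2.1 := (ρ y.1).1.injective a2
  exact Prod.ext hp (Prod.ext ht a3)

/-- the graph -/
def Gr (e : W k N G ≃ V) (ρ : Fin k × Fin k → Inp N G) : SimpleGraph V where
  Adj u v := ∃ x : Ix k N G, (u = le e ρ x ∧ v = ri e ρ x) ∨ (v = le e ρ x ∧ u = ri e ρ x)
  symm := ⟨fun u v ⟨x, hx⟩ => ⟨x, hx.symm⟩⟩
  loopless := ⟨fun u ⟨x, hx⟩ => by
    rcases hx with ⟨h1, h2⟩ | ⟨h1, h2⟩ <;> exact le_ne_ri e ρ x x (h1.symm.trans h2)⟩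

/-- the part of a player -/
def Ed (e : W k N G ≃ V) (ρ : Fin k × Fin k → Inp N G) (p : Fin k × Fin k) : Finset (Sym2 V) :=
  univ.image (fun x : Fin N × G => s(le e ρ (p, x), ri e ρ (p, x)))

lemma mem_Ed (e : W k N G ≃ V) (ρ : Fin k × Fin k → Inp N G) (p : Fin k × Fin k) (z : Sym2 V) :
    z ∈ Ed e ρ p ↔ ∃ x : Fin N × G, s(le e ρ (p, x), ri e ρ (p, x)) = z := by
  unfold Ed
  simp

lemma Ed_disjoint (e : W k N G ≃ V) (ρ : Fin k × Fin k → Inp N G) {p p' : Fin k × Fin k}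
    (h : p ≠ p') : Disjoint (Ed e ρ p) (Ed e ρ p') := by
  rw [Finset.disjoint_left]
  intro z hz hz'
  rw [mem_Ed] at hz hz'
  obtain ⟨x, hx⟩ := hz
  obtain ⟨y, hy⟩ := hz'
  rw [← hx, Sym2.eq_iff] at hy
  rcases hy with ⟨h1, h2⟩ | ⟨h1, h2⟩
  · have := le_ri_inj e ρ h1 h2
    exact h (congrArg Prod.fst this).symm
  · exact le_ne_ri e ρ _ _ h1

lemma Ed_union (e : W k N G ≃ V) (ρ : Fin k × Fin k → Inp N G) (z : Sym2 V) :
    z ∈ (Gr e ρ).edgeSet ↔ ∃ p, z ∈ Ed e ρ p := by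
  induction z using Sym2.ind with
  | _ u v =>
    rw [SimpleGraph.mem_edgeSet]
    constructor
    · rintro ⟨⟨p, x⟩, hx⟩
      refine ⟨p, ?_⟩
      rw [mem_Ed]
      refine ⟨x, ?_⟩
      rw [Sym2.eq_iff]
      rcases hx with ⟨h1, h2⟩ | ⟨h1, h2⟩
      · left; exact ⟨h1.symm, h2.symm⟩
      · right; exact ⟨h1.symm, h2.symm⟩
    · rintro ⟨p, hp⟩
      rw [mem_Ed] at hp
      obtain ⟨x, hx⟩ := hp
      rw [Sym2.eq_iff] at hx
      refine ⟨(p, x), ?_⟩
      rcases hx with ⟨h1, h2⟩ | ⟨h1, h2⟩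
      · left; exact ⟨h1.symm, h2.symm⟩
      · right; exact ⟨h1.symm, h2.symm⟩

lemma Ed_card (e : W k N G ≃ V) (ρ : Fin k × Fin k → Inp N G) (p : Fin k × Fin k) :
    (Ed e ρ p).card = N * Fintype.card G := by
  unfold Ed
  rw [card_image_of_injective]
  · rw [card_univ, Fintype.card_prod, Fintype.card_fin]
  · intro x y hxy
    simp only [Sym2.eq_iff] at hxy
    rcases hxy with ⟨h1, h2⟩ | ⟨h1, h2⟩
    · have := le_ri_inj e ρ h1 h2
      exact congrArg Prod.snd this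
    · exact absurd h1 (le_ne_ri e ρ _ _)

/-- sums over adjacent pairs -/
lemma sum_adj (e : W k N G ≃ V) (ρ : Fin k × Fin k → Inp N G) (F : V → V → ℝ) :
    ∑ u, ∑ v, (if (Gr e ρ).Adj u v then F u v else 0) =
      ∑ x : Ix k N G, (F (le e ρ x) (ri e ρ x) + F (ri e ρ x) (le e ρ x)) := by
  have h1 : ∑ u, ∑ v, (if (Gr e ρ).Adj u v then F u v else 0) =
      ∑ z ∈ (univ : Finset (V × V)).filter (fun z => (Gr e ρ).Adj z.1 z.2), F z.1 z.2 := by
    rw [sum_filter, Fintype.sum_prod_type]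
  set f1 : Ix k N G → V × V := fun x => (le e ρ x, ri e ρ x) with hf1
  set f2 : Ix k N G → V × V := fun x => (ri e ρ x, le e ρ x) with hf2
  have h2 : (univ : Finset (V × V)).filter (fun z => (Gr e ρ).Adj z.1 z.2) =
      univ.image f1 ∪ univ.image f2 := by
    ext ⟨u, v⟩
    simp only [mem_filter, mem_univ, true_and, mem_union, mem_image]
    constructor
    · rintro ⟨x, hx⟩
      rcases hx with ⟨h1, h2⟩ | ⟨h1, h2⟩
      · left; exact ⟨x, by rw [hf1]; simp [h1, h2]⟩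
      · right; exact ⟨x, by rw [hf2]; simp [h1, h2]⟩
    · rintro (⟨x, hx⟩ | ⟨x, hx⟩)
      · rw [hf1] at hx
        simp only [Prod.mk.injEq] at hx
        exact ⟨x, Or.inl ⟨hx.1.symm, hx.2.symm⟩⟩
      · rw [hf2] at hx
        simp only [Prod.mk.injEq] at hx
        exact ⟨x, Or.inr ⟨hx.2.symm, hx.1.symm⟩⟩
  have h3 : Disjoint (univ.image f1) (univ.image f2) := by
    rw [Finset.disjoint_left]
    intro z hz hz'
    simp only [mem_image, mem_univ, true_and] at hz hz'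
    obtain ⟨x, rfl⟩ := hz
    obtain ⟨y, hy⟩ := hz'
    rw [hf1, hf2] at hy
    simp only [Prod.mk.injEq] at hy
    exact le_ne_ri e ρ _ _ hy.1.symm
  rw [h1, h2, sum_union h3, sum_image, sum_image, sum_add_distrib]
  · intro x _ y _ hxy
    rw [hf2] at hxy
    simp only [Prod.mk.injEq] at hxy
    exact le_ri_inj e ρ hxy.2 hxy.1
  · intro x _ y _ hxy
    rw [hf1] at hxy
    simp only [Prod.mk.injEq] at hxy
    exact le_ri_inj e ρ hxy.1 hxy.2

lemma sum_le (e : W k N G ≃ V) (ρ : Fin k × Fin k → Inp N G) (F : V → ℝ) :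
    ∑ x : Ix k N G, F (le e ρ x) = k * ∑ y : Fin k × Fin N × G, F (e (Sum.inl y)) := by
  unfold le
  rw [Fintype.sum_prod_type, Fintype.sum_prod_type]
  have : ∀ a b : Fin k, ∑ y : Fin N × G, F (e (Sum.inl (a, (ρ (a, b)).1 y.1, y.2))) =
      ∑ y : Fin N × G, F (e (Sum.inl (a, y))) := by
    intro a b
    rw [Fintype.sum_prod_type, Fintype.sum_prod_type]
    exact Equiv.sum_comp (ρ (a, b)).1 (fun i => ∑ g : G, F (e (Sum.inl (a, i, g))))
  simp only [this, sum_const, card_univ, Fintype.card_fin, nsmul_eq_mul]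
  rw [← mul_sum]
  congr 1
  rw [Fintype.sum_prod_type (f := fun y : Fin k × Fin N × G => F (e (Sum.inl y)))]

lemma sum_ri (e : W k N G ≃ V) (ρ : Fin k × Fin k → Inp N G) (F : V → ℝ) :
    ∑ x : Ix k N G, F (ri e ρ x) = k * ∑ y : Fin k × Fin N × G, F (e (Sum.inr y)) := by
  unfold ri
  rw [Fintype.sum_prod_type, Fintype.sum_prod_type]
  have : ∀ a b : Fin k, ∑ y : Fin N × G, F (e (Sum.inr (b, (ρ (a, b)).2.1 y.1,
      y.2 + (ρ (a, b)).2.2 y.1))) = ∑ y : Fin N × G, F (e (Sum.inr (b, y))) := by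
    intro a b
    rw [Fintype.sum_prod_type, Fintype.sum_prod_type]
    have h : ∀ t : Fin N, ∑ g : G, F (e (Sum.inr (b, (ρ (a, b)).2.1 t, g + (ρ (a, b)).2.2 t))) =
        ∑ g : G, F (e (Sum.inr (b, (ρ (a, b)).2.1 t, g))) := fun t =>
      Equiv.sum_comp (Equiv.addRight ((ρ (a, b)).2.2 t)) (fun g => F (e (Sum.inr (b, (ρ (a, b)).2.1 t, g))))
    simp only [h]
    exact Equiv.sum_comp (ρ (a, b)).2.1 (fun i => ∑ g : G, F (e (Sum.inr (b, i, g))))
  simp only [this]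
  rw [sum_const, card_univ, Fintype.card_fin, nsmul_eq_mul]
  congr 1
  rw [Fintype.sum_prod_type (f := fun y : Fin k × Fin N × G => F (e (Sum.inr y)))]

lemma sum_both (e : W k N G ≃ V) (ρ : Fin k × Fin k → Inp N G) (F : V → ℝ) :
    ∑ x : Ix k N G, (F (le e ρ x) + F (ri e ρ x)) = k * ∑ v, F v := by
  rw [sum_add_distrib, sum_le, sum_ri, ← Equiv.sum_comp e F, Fintype.sum_sum_type]
  ring

/-- regularity -/
lemma Gr_regular (e : W k N G ≃ V) (ρ : Fin k × Fin k → Inp N G) (u : V) :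
    (univ.filter fun w => (Gr e ρ).Adj u w).card = k := by
  have h1 : (((univ.filter fun w => (Gr e ρ).Adj u w).card : ℕ) : ℝ) = k := by
    rw [card_filter]
    push_cast
    have h2 : ∑ u', ∑ v, (if (Gr e ρ).Adj u' v then (if u' = u then (1 : ℝ) else 0) else 0) =
        ∑ v, (if (Gr e ρ).Adj u v then (1 : ℝ) else 0) := by
      rw [sum_eq_single u]
      · simp
      · intro u' _ hu'
        simp [hu']
      · simp
    rw [← h2, sum_adj e ρ (fun u' _ => if u' = u then (1 : ℝ) else 0),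
      sum_both e ρ (fun u' => if u' = u then (1 : ℝ) else 0)]
    simp
  exact_mod_cast h1

/-- number of inner edges of `S` -/
noncomputable def inn (e : W k N G ≃ V) (ρ : Fin k × Fin k → Inp N G) (S : Finset V) : ℝ :=
  ∑ x : Ix k N G, (if le e ρ x ∈ S then 1 else 0) * (if ri e ρ x ∈ S then 1 else 0)

lemma cut (e : W k N G ≃ V) (ρ : Fin k × Fin k → Inp N G) (S : Finset V) :
    ((univ.filter fun p : V × V => p.1 ∈ S ∧ p.2 ∉ S ∧ (Gr e ρ).Adj p.1 p.2).card : ℝ) =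
      k * S.card - 2 * inn e ρ S := by
  rw [card_filter]
  push_cast
  rw [Fintype.sum_prod_type]
  have e1 : ∀ u v, (if u ∈ S ∧ v ∉ S ∧ (Gr e ρ).Adj u v then (1 : ℝ) else 0) =
      if (Gr e ρ).Adj u v then (if u ∈ S then 1 else 0) * (1 - if v ∈ S then 1 else 0) else 0 := by
    intro u v
    by_cases h1 : u ∈ S <;> by_cases h2 : v ∈ S <;> by_cases h3 : (Gr e ρ).Adj u v <;>
      simp [h1, h2, h3]
  simp only [e1]
  rw [sum_adj e ρ (fun u v => (if u ∈ S then (1 : ℝ) else 0) * (1 - if v ∈ S then 1 else 0))]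
  have e2 := sum_both e ρ (fun v => if v ∈ S then (1 : ℝ) else 0)
  have e3 : ∑ v, (if v ∈ S then (1 : ℝ) else 0) = S.card := by simp
  rw [e3] at e2
  rw [← e2]
  unfold inn
  rw [mul_sum, ← sum_sub_distrib]
  refine sum_congr rfl fun x _ => ?_
  ring

end

end Pool.Agent.V7H89.SX
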