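import Pool.Agent.V7H89.SX.Bd

set_option autoImplicit false
set_option linter.unusedSectionVars false

/-!
# Several players
-/

namespace Pool.Agent.V7H89.SX

open Finset
open scoped Classical

/-- input of a player: two permutations and the differences of the labels -/
abbrev Inp (N : ℕ) (G : Type) : Type := Equiv.Perm (Fin N) × Equiv.Perm (Fin N) × (Fin N → G)

section

variable {N : ℕ} {G : Type} [AddCommGroup G] [Fintype G] [DecidableEq G]
variable {μ : Type} [Fintype μ] [DecidableEq μ]
variable {P C : Type} [Fintype P] [DecidableEq P] [Fintype C] [DecidableEq C]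

/-- the input of player `p` with hidden labels `Z` -/
def plant (T : ℕ) (l r : P → C) (Z : C → Fin N → G) (ρ : P → Inp N G) (p : P) : Inp N G :=
  ((ρ p).1, (ρ p).2.1, mixf T (Z (l p)) (Z (r p)) (ρ p))

lemma abs_ev_le {α : Type*} [Fintype α] [Nonempty α] {f : α → ℝ} {c : ℝ} (h : ∀ a, |f a| ≤ c) :
    |ev f| ≤ c := by
  refine (ev_abs f).trans ?_
  have := ev_mono h
  rwa [ev_const] at this

lemma foldl_congr' {α β : Type*} (L : List α) (f g : β → α → β) (s : β)
    (h : ∀ p ∈ L, ∀ s, f s p = g s p) : L.foldl f s = L.foldl g s := by
  induction L generalizing s with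
  | nil => rfl
  | cons a L ih =>
    rw [List.foldl_cons, List.foldl_cons, h a (by simp)]
    exact ih _ fun p hp s => h p (by simp [hp]) s

theorem hybrid (snd : P → μ → Inp N G → μ) (s₀ : μ) (l r : P → C) (hlr : ∀ p, l p ≠ r p)
    (T : ℕ) (hT : T < N) (ε : ℝ) (hε : 0 ≤ ε)
    (hb : 4 * (T * ((Fintype.card G : ℝ) ^ 2 * Bc N (Fintype.card G) (Real.log (Fintype.card μ)) /
        ((N : ℝ) - T) ^ 2)) ≤ ε ^ 2)
    (L : List P) (hL : L.Nodup) (f : μ → ℝ) (f0 : ∀ s, 0 ≤ f s) (f1 : ∀ s, f s ≤ 1) :
    |ev (fun Z : C → Fin N → G => ev (fun ρ : P → Inp N G =>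
        f (L.foldl (fun s p => snd p s (plant T l r Z ρ p)) s₀))) -
      ev (fun ρ : P → Inp N G => f (L.foldl (fun s p => snd p s (ρ p)) s₀))| ≤ L.length * ε := by
  induction L using List.reverseRecOn generalizing f with
  | nil => simp [ev_const]
  | append_singleton L p ih =>
    have hL' : L.Nodup := (List.nodup_append.1 hL).1
    have hp : p ∉ L := by
      have := List.nodup_append.1 hL
      intro h
      exact this.2.2 p h p (by simp) rfl
    set R : (C → Fin N → G) → (P → Inp N G) → μ := fun Z ρ =>
      L.foldl (fun s p => snd p s (plant T l r Z ρ p)) s₀ with hR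
    set U : (P → Inp N G) → μ := fun ρ => L.foldl (fun s p => snd p s (ρ p)) s₀ with hU
    set g : μ → ℝ := fun s => ev (fun z => f (snd p s z)) with hg
    have g0 : ∀ s, 0 ≤ g s := fun s => ev_nonneg fun z => f0 _
    have g1 : ∀ s, g s ≤ 1 := fun s => by
      have := ev_mono (fun z => f1 (snd p s z))
      rwa [ev_const] at this
    have ih' := ih hL' g g0 g1
    have Rup : ∀ Z ρ z, R Z (Function.update ρ p z) = R Z ρ := by
      intro Z ρ z
      rw [hR]
      refine foldl_congr' L _ _ s₀ fun p' hp' s => ?_
      have : p' ≠ p := fun h => hp (h ▸ hp')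
      unfold plant
      rw [Function.update_of_ne this]
    have Uup : ∀ ρ z, U (Function.update ρ p z) = U ρ := by
      intro ρ z
      rw [hU]
      refine foldl_congr' L _ _ s₀ fun p' hp' s => ?_
      have : p' ≠ p := fun h => hp (h ▸ hp')
      rw [Function.update_of_ne this]
    have claimB : ev (fun ρ : P → Inp N G => f ((L ++ [p]).foldl (fun s p => snd p s (ρ p)) s₀)) =
        ev (fun ρ => g (U ρ)) := by
      rw [ev_update p]
      refine ev_congr fun ρ => ?_
      rw [hg]
      simp only
      refine ev_congr fun z => ?_
      rw [List.foldl_append]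
      simp only [List.foldl_cons, List.foldl_nil]
      have := Uup ρ z
      rw [hU] at this
      simp only at this
      rw [this, Function.update_self]
    have two : ∀ h : (C → Fin N → G) → ℝ, ev h = ev (fun Z => ev (fun x => ev (fun y =>
        h (Function.update (Function.update Z (l p) x) (r p) y)))) := by
      intro h
      rw [ev_update (r p) h, ev_update (l p) (fun Z => ev (fun y => h (Function.update Z (r p) y)))]
    have cm : ∀ h : (Fin N → G) → (Fin N → G) → (P → Inp N G) → ℝ,
        ev (fun x => ev (fun y => ev (fun ρ => h x y ρ))) =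
        ev (fun ρ => ev (fun x => ev (fun y => h x y ρ))) := by
      intro h
      have : ∀ x, ev (fun y => ev (fun ρ => h x y ρ)) = ev (fun ρ => ev (fun y => h x y ρ)) :=
        fun x => ev_comm _
      simp only [this]
      rw [ev_comm]
    have e1 : ev (fun Z : C → Fin N → G => ev (fun ρ : P → Inp N G =>
        f ((L ++ [p]).foldl (fun s p => snd p s (plant T l r Z ρ p)) s₀))) =
        ev (fun Z => ev (fun ρ => ev (fun x => ev (fun y => ev (fun z =>
          f (snd p (R (Function.update (Function.update Z (l p) x) (r p) y) ρ)
            (z.1, z.2.1, mixf T x y z))))))) := by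
      rw [two]
      refine ev_congr fun Z => ?_
      rw [← cm]
      refine ev_congr fun x => ev_congr fun y => ?_
      rw [ev_update p]
      refine ev_congr fun ρ => ev_congr fun z => ?_
      rw [List.foldl_append]
      simp only [List.foldl_cons, List.foldl_nil]
      have := Rup (Function.update (Function.update Z (l p) x) (r p) y) ρ z
      rw [hR] at this
      simp only at this
      rw [this]
      have pl : plant T l r (Function.update (Function.update Z (l p) x) (r p) y)
          (Function.update ρ p z) p = (z.1, z.2.1, mixf T x y z) := by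
        unfold plant
        rw [Function.update_self, Function.update_self, Function.update_of_ne (hlr p),
          Function.update_self]
      rw [pl]
    have e2 : ev (fun Z => ev (fun ρ => g (R Z ρ))) =
        ev (fun Z => ev (fun ρ => ev (fun x => ev (fun y => ev (fun z =>
          f (snd p (R (Function.update (Function.update Z (l p) x) (r p) y) ρ) z)))))) := by
      rw [two]
      refine ev_congr fun Z => ?_
      rw [← cm]
    have claimA : |ev (fun Z : C → Fin N → G => ev (fun ρ : P → Inp N G =>
        f ((L ++ [p]).foldl (fun s p => snd p s (plant T l r Z ρ p)) s₀))) -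
        ev (fun Z => ev (fun ρ => g (R Z ρ)))| ≤ ε := by
      rw [e1, e2, ← ev_sub]
      refine abs_ev_le fun Z => ?_
      rw [← ev_sub]
      refine abs_ev_le fun ρ => ?_
      refine abs_le_of_sq_le_sq ?_ hε
      refine (cell (fun x y => R (Function.update (Function.update Z (l p) x) (r p) y) ρ) T hT
        (fun a z => f (snd p a z)) (fun a z => f0 _) (fun a z => f1 _)).trans hb
    rw [claimB]
    have h3 : |ev (fun Z => ev (fun ρ => g (R Z ρ))) - ev (fun ρ => g (U ρ))| ≤ L.length * ε := ih'
    have h4 := abs_le.1 claimA
    have h5 := abs_le.1 h3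
    rw [List.length_append]
    push_cast
    simp only [List.length_cons, List.length_nil]
    rw [abs_le]
    constructor <;> push_cast <;> linarith [h4.1, h4.2, h5.1, h5.2]

end

end Pool.Agent.V7H89.SX
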