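import Pool.Agent.V7H89.SX.Ev

set_option autoImplicit false
set_option linter.unusedSectionVars false

/-!
# Level inequalities for functions on products, from relative entropy
-/

namespace Pool.Agent.V7H89.SX

open Finset
open scoped Classical

/-- centred indicator -/
noncomputable def gi {G : Type*} [Fintype G] (c z : G) : ℝ :=
  (if z = c then 1 else 0) - 1 / Fintype.card G

section

variable {ι G : Type*} [Fintype ι] [DecidableEq ι] [Fintype G] [DecidableEq G] [Nonempty G]

lemma gi_abs (c z : G) : |gi c z| ≤ 1 := by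
  unfold gi
  have h1 : (1 : ℝ) ≤ Fintype.card G := by exact_mod_cast Fintype.card_pos
  have h2 : 1 / (Fintype.card G : ℝ) ≤ 1 := by
    rw [div_le_one (by linarith)]; exact h1
  have h3 : 0 ≤ 1 / (Fintype.card G : ℝ) := by positivity
  split_ifs <;> rw [abs_le] <;> constructor <;> linarith

lemma gi_mul (F : ℝ) (c z : G) : F * gi c z = (if z = c then F else 0) - F / Fintype.card G := by
  unfold gi
  split_ifs <;> ring

theorem level1_aux (F : (ι → G) → ℝ) (h0 : ∀ x, 0 ≤ F x) (h1 : ∀ x, F x ≤ 1) (hm : 0 < ev F) :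
    ∑ i, ∑ c, (ev (fun x => F x * gi c (x i))) ^ 2 ≤ 4 * (ev F) ^ 2 * Real.log (1 / ev F) := by
  set m := ev F with hmdef
  set q : ℝ := (Fintype.card G : ℝ) with hq
  have hq0 : 0 < q := by rw [hq]; exact_mod_cast Fintype.card_pos
  set p : ι → G → ℝ := fun i c => ev (fun x : ι → G => if x i = c then F x else 0) / m with hp
  have p0 : ∀ i c, 0 ≤ p i c := fun i c =>
    div_nonneg (ev_nonneg fun x => by split_ifs; exacts [h0 x, le_refl _]) hm.le
  have psum : ∀ i, ∑ c, p i c = 1 := by
    intro i
    rw [hp]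
    simp only
    rw [← sum_div, ← ev_sum, div_eq_one_iff_eq hm.ne', hmdef]
    exact ev_congr fun x => by simp
  have e1 : ∀ i c, ev (fun x => F x * gi c (x i)) = m * (p i c - 1 / q) := by
    intro i c
    simp only [gi_mul]
    rw [ev_sub, ev_div, ← hmdef, hp]
    simp only
    rw [← hq]
    field_simp
  have e2 : ∀ i, ∑ c, (ev (fun x => F x * gi c (x i))) ^ 2 ≤
      4 * m ^ 2 * ∑ c, p i c * Real.log (q * p i c) := by
    intro i
    have := hell_unif (p i) (p0 i) (psum i)
    calc ∑ c, (ev (fun x => F x * gi c (x i))) ^ 2 = m ^ 2 * ∑ c, (p i c - 1 / q) ^ 2 := by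
          rw [mul_sum]
          exact sum_congr rfl fun c _ => by rw [e1]; ring
      _ ≤ m ^ 2 * (4 * ∑ c, p i c * Real.log (q * p i c)) :=
          mul_le_mul_of_nonneg_left this (sq_nonneg _)
      _ = _ := by ring
  have e3 : ∑ i, ∑ c, p i c * Real.log (q * p i c) ≤ Real.log (1 / m) := by
    set ψ : (ι → G) → ℝ := fun x => ∏ i, (q * p i (x i)) with hψ
    have ψ1 : ev ψ = 1 := by
      rw [hψ, ev_pi (fun i c => q * p i c)]
      refine prod_eq_one fun i _ => ?_
      unfold ev
      rw [← mul_sum, psum, mul_one, ← hq, div_self hq0.ne']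
    have ψ0 : ∀ x, 0 ≤ ψ x := fun x => prod_nonneg fun i _ => mul_nonneg hq0.le (p0 _ _)
    have s1 : ∑ i, ∑ c, p i c * Real.log (q * p i c) =
        ev (fun x => F x / m * ∑ i, Real.log (q * p i (x i))) := by
      have : ∀ x : ι → G, F x / m * ∑ i, Real.log (q * p i (x i)) =
          ∑ i, ∑ c, (if x i = c then F x else 0) / m * Real.log (q * p i c) := by
        intro x
        rw [mul_sum]
        refine sum_congr rfl fun i _ => ?_
        rw [sum_eq_single (x i)]
        · simp
        · intro c _ hc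
          rw [if_neg (Ne.symm hc)]; simp
        · simp
      simp only [this]
      rw [ev_sum]
      refine sum_congr rfl fun i _ => ?_
      rw [ev_sum]
      refine sum_congr rfl fun c _ => ?_
      rw [ev_mul', ev_div]
    rw [s1]
    have pw : ∀ x, F x / m * ∑ i, Real.log (q * p i (x i)) ≤
        ψ x - F x / m + F x / m * Real.log (1 / m) := by
      intro x
      rcases (h0 x).eq_or_lt with hx | hx
      · rw [← hx]
        simpa using ψ0 x
      · have hpp : ∀ i, 0 < p i (x i) := by
          intro i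
          refine div_pos ?_ hm
          unfold ev
          refine div_pos ?_ (by exact_mod_cast Fintype.card_pos)
          refine lt_of_lt_of_le hx ?_
          have := single_le_sum (f := fun y : ι → G => if y i = x i then F y else 0)
            (s := univ) (fun y _ => by split_ifs; exacts [h0 y, le_refl _]) (mem_univ x)
          simpa using this
        have hψx : 0 < ψ x := prod_pos fun i _ => mul_pos hq0 (hpp i)
        have hl : ∑ i, Real.log (q * p i (x i)) = Real.log (ψ x) := by
          rw [hψ]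
          simp only
          rw [Real.log_prod (fun i _ => (mul_pos hq0 (hpp i)).ne')]
        rw [hl]
        have hφ : 0 < F x / m := div_pos hx hm
        have h3 := Real.log_le_sub_one_of_pos (div_pos hψx hφ)
        rw [Real.log_div hψx.ne' hφ.ne'] at h3
        have h4 : Real.log (F x / m) ≤ Real.log (1 / m) :=
          Real.log_le_log hφ (div_le_div_of_nonneg_right (h1 x) hm.le)
        have h5 : F x / m * (ψ x / (F x / m)) = ψ x := by field_simp
        nlinarith [mul_le_mul_of_nonneg_left h3 hφ.le, mul_le_mul_of_nonneg_left h4 hφ.le]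
    calc ev (fun x => F x / m * ∑ i, Real.log (q * p i (x i)))
        ≤ ev (fun x => ψ x - F x / m + F x / m * Real.log (1 / m)) := ev_mono pw
      _ = Real.log (1 / m) := by
          rw [ev_add, ev_sub, ψ1, ev_mul', ev_div, ← hmdef, div_self hm.ne']
          ring
  calc ∑ i, ∑ c, (ev (fun x => F x * gi c (x i))) ^ 2
      ≤ ∑ i, 4 * m ^ 2 * ∑ c, p i c * Real.log (q * p i c) := sum_le_sum fun i _ => e2 i
    _ = 4 * m ^ 2 * ∑ i, ∑ c, p i c * Real.log (q * p i c) := by rw [mul_sum]
    _ ≤ 4 * m ^ 2 * Real.log (1 / m) := mul_le_mul_of_nonneg_left e3 (by positivity)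

theorem level1 (F : (ι → G) → ℝ) (h0 : ∀ x, 0 ≤ F x) (h1 : ∀ x, F x ≤ 1) :
    ∑ i, ∑ c, (ev (fun x => F x * gi c (x i))) ^ 2 ≤ 4 * (ev F) ^ 2 * Real.log (1 / ev F) := by
  rcases (ev_nonneg h0).eq_or_lt with hm | hm
  · have hz : ∀ x, F x = 0 := by
      have hs : ∑ x, F x = 0 := by
        have hc : (0 : ℝ) < Fintype.card (ι → G) := by exact_mod_cast Fintype.card_pos
        unfold ev at hm
        have := hm.symm
        rw [div_eq_zero_iff] at this
        rcases this with h | h
        · exact h
        · exact absurd h hc.ne'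
      intro x
      exact (sum_eq_zero_iff_of_nonneg (fun y _ => h0 y)).1 hs x (mem_univ x)
    rw [← hm]
    simp [hz, ev_zero]
  · exact level1_aux F h0 h1 hm

end

lemma aux_log {u a m n : ℝ} (hu0 : 0 ≤ u) (hua : u ≤ a) (_ham : a ≤ m) (hm : 0 < m) (hm1 : m ≤ 1)
    (hn : 1 ≤ n) :
    u ^ 2 * Real.log (1 / u) ≤ a ^ 2 * (Real.log (1 / m) + Real.log n) + m ^ 2 / n := by
  have l1 : 0 ≤ Real.log (1 / m) := Real.log_nonneg (by rw [le_div_iff₀ hm]; linarith)
  have l2 : 0 ≤ Real.log n := Real.log_nonneg hn
  have hn0 : 0 < n := by linarith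
  have l3 : 0 ≤ m ^ 2 / n := by positivity
  have ha0 : 0 ≤ a := hu0.trans hua
  have hsq : u ^ 2 ≤ a ^ 2 := by nlinarith
  rcases hu0.eq_or_lt with h | h
  · rw [← h]
    have : 0 ≤ a ^ 2 * (Real.log (1 / m) + Real.log n) := by positivity
    simp only [ne_eq, OfNat.ofNat_ne_zero, not_false_eq_true, zero_pow, zero_mul]
    linarith
  · rcases le_or_gt (m / n) u with h3 | h3
    · have : Real.log (1 / u) ≤ Real.log (1 / m) + Real.log n := by
        rw [← Real.log_mul (by positivity) (by positivity)]
        refine Real.log_le_log (by positivity) ?_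
        rw [div_le_iff₀ h]
        have : m ≤ u * n := by rwa [div_le_iff₀ hn0] at h3
        rw [show 1 / m * n * u = (u * n) / m by ring, le_div_iff₀ hm]
        linarith
      have h5 : u ^ 2 * Real.log (1 / u) ≤ u ^ 2 * (Real.log (1 / m) + Real.log n) :=
        mul_le_mul_of_nonneg_left this (sq_nonneg _)
      have h6 : u ^ 2 * (Real.log (1 / m) + Real.log n) ≤ a ^ 2 * (Real.log (1 / m) + Real.log n) :=
        mul_le_mul_of_nonneg_right hsq (by positivity)
      linarith
    · have h4 : Real.log (1 / u) = Real.log (1 / m) + Real.log (m / u) := by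
        rw [← Real.log_mul (by positivity) (by positivity)]
        congr 1
        field_simp
      have h5 := Real.log_le_sub_one_of_pos (div_pos hm h)
      have h6 : u ^ 2 * Real.log (m / u) ≤ m ^ 2 / n := by
        have e1 : u ^ 2 * Real.log (m / u) ≤ u ^ 2 * (m / u - 1) :=
          mul_le_mul_of_nonneg_left h5 (sq_nonneg _)
        have e2 : u ^ 2 * (m / u - 1) = u * m - u ^ 2 := by field_simp
        have e3 : u * m ≤ m / n * m := mul_le_mul_of_nonneg_right h3.le hm.le
        have e4 : m / n * m = m ^ 2 / n := by ring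
        nlinarith [sq_nonneg u]
      have h7 : u ^ 2 * Real.log (1 / m) ≤ a ^ 2 * Real.log (1 / m) :=
        mul_le_mul_of_nonneg_right hsq l1
      have h8 : 0 ≤ a ^ 2 * Real.log n := by positivity
      rw [h4]
      nlinarith

section two

variable {ι G : Type*} [Fintype ι] [DecidableEq ι] [Nonempty ι] [Fintype G] [DecidableEq G]
  [Nonempty G]

/-- The second level, in a product of two spaces. -/
theorem level2 (F : (ι → G) → (ι → G) → ℝ) (h0 : ∀ x y, 0 ≤ F x y) (h1 : ∀ x y, F x y ≤ 1)
    (hm : 0 < ev (fun y => ev (fun x => F x y))) :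
    ∑ i, ∑ c, ∑ j, ∑ c', (ev (fun y => ev (fun x => F x y * gi c (x i)) * gi c' (y j))) ^ 2 ≤
      64 * (ev (fun y => ev (fun x => F x y))) ^ 2 *
        (Real.log (1 / ev (fun y => ev (fun x => F x y))) *
          (Real.log (1 / ev (fun y => ev (fun x => F x y))) + Real.log (Fintype.card ι)) +
          Fintype.card G) := by
  set Fy : (ι → G) → ℝ := fun y => ev (fun x => F x y) with hFy
  set m := ev Fy with hmdef
  set n : ℝ := (Fintype.card ι : ℝ) with hn
  set q : ℝ := (Fintype.card G : ℝ) with hq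
  have hn1 : 1 ≤ n := by rw [hn]; exact_mod_cast Fintype.card_pos
  have hq1 : 1 ≤ q := by rw [hq]; exact_mod_cast Fintype.card_pos
  have Fy0 : ∀ y, 0 ≤ Fy y := fun y => ev_nonneg fun x => h0 x y
  have Fy1 : ∀ y, Fy y ≤ 1 := fun y => by
    have := ev_mono (fun x => h1 x y)
    rwa [ev_const] at this
  have hm1 : m ≤ 1 := by
    have := ev_mono Fy1
    rwa [ev_const] at this
  have l1 : 0 ≤ Real.log (1 / m) := Real.log_nonneg (by rw [le_div_iff₀ hm]; linarith)
  have l2 : 0 ≤ Real.log n := Real.log_nonneg hn1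
  set K : ι → G → (ι → G) → ℝ := fun i c y => ev (fun x => F x y * gi c (x i)) with hK
  set a : ι → G → ℝ := fun i c => ev (fun y => |K i c y|) with ha
  have KF : ∀ i c y, |K i c y| ≤ Fy y := by
    intro i c y
    rw [hK, hFy]
    refine (ev_abs _).trans (ev_mono fun x => ?_)
    rw [abs_mul, abs_of_nonneg (h0 x y)]
    exact mul_le_of_le_one_right (h0 x y) (gi_abs _ _)
  have a0 : ∀ i c, 0 ≤ a i c := fun i c => ev_nonneg fun y => abs_nonneg _
  have am : ∀ i c, a i c ≤ m := fun i c => ev_mono fun y => KF i c y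
  -- step A
  have stepA : ∑ i, ∑ c, (a i c) ^ 2 ≤ 4 * m ^ 2 * Real.log (1 / m) := by
    have cs : ∀ i c, (a i c) ^ 2 ≤ m * ev (fun y => (K i c y) ^ 2 / Fy y) := by
      intro i c
      have hc : (0 : ℝ) < Fintype.card (ι → G) := by exact_mod_cast Fintype.card_pos
      have h3 : (∑ y, |K i c y|) ^ 2 ≤ (∑ y, Fy y) * ∑ y, (K i c y) ^ 2 / Fy y := by
        refine sum_sq_le_sum_mul_sum_of_sq_le_mul univ (fun y _ => Fy0 y)
          (fun y _ => div_nonneg (sq_nonneg _) (Fy0 y)) (fun y _ => ?_)
        rw [sq_abs]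
        rcases (Fy0 y).eq_or_lt with h | h
        · have hz : K i c y = 0 := by
            have := KF i c y
            rw [← h] at this
            exact abs_nonpos_iff.1 this
          rw [hz]; simp
        · rw [mul_div_cancel₀ _ h.ne']
      rw [ha, hmdef]
      unfold ev
      rw [div_pow, div_mul_div_comm, ← sq]
      exact div_le_div_of_nonneg_right h3 (by positivity)
    have lv : ∀ y, ∑ i, ∑ c, (K i c y) ^ 2 / Fy y ≤ 4 * (Fy y * Real.log (1 / Fy y)) := by
      intro y
      have := level1 (fun x => F x y) (fun x => h0 x y) (fun x => h1 x y)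
      rcases (Fy0 y).eq_or_lt with h | h
      · rw [← h]; simp
      · have e : ∑ i, ∑ c, (K i c y) ^ 2 / Fy y = (∑ i, ∑ c, (K i c y) ^ 2) / Fy y := by
          simp only [← sum_div]
        rw [e, div_le_iff₀ h]
        calc ∑ i, ∑ c, (K i c y) ^ 2 ≤ 4 * (Fy y) ^ 2 * Real.log (1 / Fy y) := this
          _ = _ := by ring
    have jn : ev (fun y => Fy y * Real.log (1 / Fy y)) ≤ m * Real.log (1 / m) := by
      have : ∀ y, Fy y * Real.log (1 / Fy y) ≤ Fy y * Real.log (1 / m) + (m - Fy y) := by
        intro y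
        rcases (Fy0 y).eq_or_lt with h | h
        · rw [← h]; simp [hm.le]
        · have h4 : Real.log (1 / Fy y) = Real.log (1 / m) + Real.log (m / Fy y) := by
            rw [← Real.log_mul (by positivity) (by positivity)]
            congr 1
            field_simp
          have h5 := Real.log_le_sub_one_of_pos (div_pos hm h)
          have h6 : Fy y * (m / Fy y - 1) = m - Fy y := by field_simp
          rw [h4, mul_add]
          have := mul_le_mul_of_nonneg_left h5 h.le
          linarith
      calc ev (fun y => Fy y * Real.log (1 / Fy y))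
          ≤ ev (fun y => Fy y * Real.log (1 / m) + (m - Fy y)) := ev_mono this
        _ = m * Real.log (1 / m) := by
            rw [ev_add, ev_mul', ev_sub, ev_const, ← hmdef]; ring
    calc ∑ i, ∑ c, (a i c) ^ 2 ≤ ∑ i, ∑ c, m * ev (fun y => (K i c y) ^ 2 / Fy y) :=
          sum_le_sum fun i _ => sum_le_sum fun c _ => cs i c
      _ = m * ev (fun y => ∑ i, ∑ c, (K i c y) ^ 2 / Fy y) := by
          rw [ev_sum, mul_sum]
          refine sum_congr rfl fun i _ => ?_
          rw [ev_sum, mul_sum]
      _ ≤ m * ev (fun y => 4 * (Fy y * Real.log (1 / Fy y))) :=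
          mul_le_mul_of_nonneg_left (ev_mono lv) hm.le
      _ = 4 * (m * ev (fun y => Fy y * Real.log (1 / Fy y))) := by rw [ev_mul]; ring
      _ ≤ 4 * (m * (m * Real.log (1 / m))) := by
          have := mul_le_mul_of_nonneg_left jn hm.le
          linarith
      _ = _ := by ring
  -- step B
  have stepB : ∀ i c, ∑ j, ∑ c', (ev (fun y => K i c y * gi c' (y j))) ^ 2 ≤
      16 * ((a i c) ^ 2 * (Real.log (1 / m) + Real.log n) + m ^ 2 / n) := by
    intro i c
    set Kp : (ι → G) → ℝ := fun y => max (K i c y) 0 with hKp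
    set Km : (ι → G) → ℝ := fun y => max (-K i c y) 0 with hKm
    have b1 : ∀ y, |K i c y| ≤ 1 := fun y => (KF i c y).trans (Fy1 y)
    have p0 : ∀ y, 0 ≤ Kp y := fun y => le_max_right _ _
    have p1 : ∀ y, Kp y ≤ 1 := fun y => max_le ((le_abs_self _).trans (b1 y)) zero_le_one
    have m0 : ∀ y, 0 ≤ Km y := fun y => le_max_right _ _
    have m1 : ∀ y, Km y ≤ 1 := fun y => max_le ((neg_le_abs _).trans (b1 y)) zero_le_one
    have pa : ev Kp ≤ a i c := ev_mono fun y => max_le (le_abs_self _) (abs_nonneg _)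
    have ma : ev Km ≤ a i c := ev_mono fun y => max_le (neg_le_abs _) (abs_nonneg _)
    have hd : ∀ y, K i c y = Kp y - Km y := by
      intro y
      rw [hKp, hKm]
      simp only
      rcases le_total 0 (K i c y) with h | h
      · rw [max_eq_left h, max_eq_right (by linarith)]; ring
      · rw [max_eq_right h, max_eq_left (by linarith)]; ring
    have e1 : ∀ j c', ev (fun y => K i c y * gi c' (y j)) =
        ev (fun y => Kp y * gi c' (y j)) - ev (fun y => Km y * gi c' (y j)) := by
      intro j c'
      rw [← ev_sub]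
      exact ev_congr fun y => by rw [hd y]; ring
    have L1 := level1 Kp p0 p1
    have L2 := level1 Km m0 m1
    have A1 := aux_log (ev_nonneg p0) pa (am i c) hm hm1 hn1
    have A2 := aux_log (ev_nonneg m0) ma (am i c) hm hm1 hn1
    calc ∑ j, ∑ c', (ev (fun y => K i c y * gi c' (y j))) ^ 2
        ≤ ∑ j, ∑ c', (2 * (ev (fun y => Kp y * gi c' (y j))) ^ 2 +
            2 * (ev (fun y => Km y * gi c' (y j))) ^ 2) := by
          refine sum_le_sum fun j _ => sum_le_sum fun c' _ => ?_
          rw [e1]
          nlinarith [sq_nonneg (ev (fun y => Kp y * gi c' (y j)) + ev (fun y => Km y * gi c' (y j)))]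
      _ = 2 * (∑ j, ∑ c', (ev (fun y => Kp y * gi c' (y j))) ^ 2) +
            2 * (∑ j, ∑ c', (ev (fun y => Km y * gi c' (y j))) ^ 2) := by
          simp only [sum_add_distrib, ← mul_sum]
      _ ≤ 2 * (4 * (ev Kp) ^ 2 * Real.log (1 / ev Kp)) + 2 * (4 * (ev Km) ^ 2 * Real.log (1 / ev Km)) := by
          linarith
      _ ≤ _ := by linarith
  calc ∑ i, ∑ c, ∑ j, ∑ c', (ev (fun y => K i c y * gi c' (y j))) ^ 2
      ≤ ∑ i, ∑ c, 16 * ((a i c) ^ 2 * (Real.log (1 / m) + Real.log n) + m ^ 2 / n) :=
        sum_le_sum fun i _ => sum_le_sum fun c _ => stepB i c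
    _ = 16 * ((∑ i, ∑ c, (a i c) ^ 2) * (Real.log (1 / m) + Real.log n) + q * m ^ 2) := by
        simp only [← mul_sum, sum_add_distrib, ← sum_mul, sum_const, card_univ, nsmul_eq_mul]
        rw [← hn, ← hq]
        congr 2
        field_simp
    _ ≤ 16 * ((4 * m ^ 2 * Real.log (1 / m)) * (Real.log (1 / m) + Real.log n) + q * m ^ 2) := by
        have := mul_le_mul_of_nonneg_right stepA (add_nonneg l1 l2)
        linarith
    _ ≤ _ := by
        have : 0 ≤ q * m ^ 2 := by positivity
        nlinarith

end two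

end Pool.Agent.V7H89.SX
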