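import Pool.Agent.V7H89.SX.Gr

set_option autoImplicit false
set_option linter.unusedSectionVars false

/-!
# With uniform differences every set of this size has few inner edges
-/

namespace Pool.Agent.V7H89.SX

open Finset
open scoped Classical

lemma perm_prod {N : ℕ} (F : Fin N → Fin N → ℝ) (F0 : ∀ t j, 0 ≤ F t j) (H : Finset (Fin N))
    (hH : 2 * H.card ≤ N + 2) :
    ev (fun τ : Equiv.Perm (Fin N) => ∏ t ∈ H, (1 + F t (τ t))) ≤
      ∏ t ∈ H, (1 + 2 / (N : ℝ) * ∑ j, F t j) := by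
  induction H using Finset.induction_on with
  | empty => simp [ev_const]
  | insert t₀ H ht ih =>
    rw [card_insert_of_notMem ht] at hH
    have ih' := ih (by omega)
    have hN : 0 < N := Fin.pos t₀
    have hNr : (0 : ℝ) < N := by exact_mod_cast hN
    have hcard : ((Hᶜ).card : ℝ) = N - H.card := by
      rw [card_compl, Fintype.card_fin, Nat.cast_sub (by omega)]
    have hhalf : (N : ℝ) / 2 ≤ (Hᶜ).card := by
      rw [hcard]
      have : (2 * (H.card + 1) : ℝ) ≤ N + 2 := by exact_mod_cast hH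
      linarith
    have hpos : (0 : ℝ) < (Hᶜ).card := by linarith
    have sw : ∀ r ∈ Hᶜ, ev (fun τ : Equiv.Perm (Fin N) => (1 + F t₀ (τ t₀)) *
        ∏ t ∈ H, (1 + F t (τ t))) = ev (fun τ : Equiv.Perm (Fin N) => (1 + F t₀ (τ r)) *
        ∏ t ∈ H, (1 + F t (τ t))) := by
      intro r hr
      rw [mem_compl] at hr
      rw [← ev_equiv (Equiv.mulRight (Equiv.swap t₀ r)) (fun τ : Equiv.Perm (Fin N) =>
        (1 + F t₀ (τ t₀)) * ∏ t ∈ H, (1 + F t (τ t)))]
      refine ev_congr fun τ => ?_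
      simp only [Equiv.coe_mulRight, Equiv.Perm.mul_apply, Equiv.swap_apply_left]
      congr 1
      refine prod_congr rfl fun t hth => ?_
      have n1 : t ≠ t₀ := fun h => ht (by rw [← h]; exact hth)
      have n2 : t ≠ r := fun h => hr (by rw [← h]; exact hth)
      rw [Equiv.swap_apply_of_ne_of_ne n1 n2]
    set X := ev (fun τ : Equiv.Perm (Fin N) => (1 + F t₀ (τ t₀)) * ∏ t ∈ H, (1 + F t (τ t))) with hX
    set Y := ev (fun τ : Equiv.Perm (Fin N) => ∏ t ∈ H, (1 + F t (τ t))) with hY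
    have P0 : ∀ τ : Equiv.Perm (Fin N), 0 ≤ ∏ t ∈ H, (1 + F t (τ t)) := fun τ =>
      prod_nonneg fun t _ => by linarith [F0 t (τ t)]
    have Y0 : 0 ≤ Y := ev_nonneg P0
    have s0 : 0 ≤ ∑ j, F t₀ j := sum_nonneg fun j _ => F0 _ _
    have h1 : ((Hᶜ).card : ℝ) * X ≤ ((Hᶜ).card + ∑ j, F t₀ j) * Y := by
      calc ((Hᶜ).card : ℝ) * X = ∑ r ∈ Hᶜ, X := by rw [sum_const, nsmul_eq_mul]
        _ = ∑ r ∈ Hᶜ, ev (fun τ : Equiv.Perm (Fin N) => (1 + F t₀ (τ r)) *
            ∏ t ∈ H, (1 + F t (τ t))) := sum_congr rfl sw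
        _ = ev (fun τ : Equiv.Perm (Fin N) => (∑ r ∈ Hᶜ, (1 + F t₀ (τ r))) *
            ∏ t ∈ H, (1 + F t (τ t))) := by
            rw [← ev_sum]
            exact ev_congr fun τ => by rw [sum_mul]
        _ ≤ ev (fun τ : Equiv.Perm (Fin N) => ((Hᶜ).card + ∑ j, F t₀ j) *
            ∏ t ∈ H, (1 + F t (τ t))) := by
            refine ev_mono fun τ => mul_le_mul_of_nonneg_right ?_ (P0 τ)
            rw [sum_add_distrib, sum_const, nsmul_eq_mul, mul_one]
            have : ∑ r ∈ Hᶜ, F t₀ (τ r) ≤ ∑ r, F t₀ (τ r) :=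
              sum_le_sum_of_subset_of_nonneg (subset_univ _) fun r _ _ => F0 _ _
            rw [Equiv.sum_comp τ (fun j => F t₀ j)] at this
            linarith
        _ = _ := by rw [ev_mul]
    have h2 : X ≤ (1 + 2 / (N : ℝ) * ∑ j, F t₀ j) * Y := by
      have h3 : ((Hᶜ).card + ∑ j, F t₀ j) * Y ≤
          ((Hᶜ).card : ℝ) * ((1 + 2 / (N : ℝ) * ∑ j, F t₀ j) * Y) := by
        rw [← mul_assoc]
        refine mul_le_mul_of_nonneg_right ?_ Y0
        have : (1 : ℝ) ≤ (Hᶜ).card * (2 / N) := by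
          rw [mul_div_assoc', le_div_iff₀ hNr]
          linarith
        nlinarith
      exact le_of_mul_le_mul_left (h1.trans h3) hpos
    calc ev (fun τ : Equiv.Perm (Fin N) => ∏ t ∈ insert t₀ H, (1 + F t (τ t))) = X := by
          rw [hX]
          exact ev_congr fun τ => by rw [prod_insert ht]
      _ ≤ (1 + 2 / (N : ℝ) * ∑ j, F t₀ j) * Y := h2
      _ ≤ (1 + 2 / (N : ℝ) * ∑ j, F t₀ j) * ∏ t ∈ H, (1 + 2 / (N : ℝ) * ∑ j, F t j) :=
          mul_le_mul_of_nonneg_left ih' (by positivity)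
      _ = _ := by rw [prod_insert ht]

lemma prod_one_add_le {ι : Type*} (H : Finset ι) (c : ℝ) (hc : 0 ≤ c) :
    ∏ _t ∈ H, (1 + c) ≤ Real.exp (H.card * c) := by
  rw [prod_const, Real.exp_nat_mul]
  exact pow_le_pow_left₀ (by linarith) (by linarith [Real.add_one_le_exp c]) _

lemma exp_le_two {x : ℝ} (h0 : 0 ≤ x) (h1 : x ≤ 1) : Real.exp x ≤ 1 + 2 * x := by
  have h := Real.abs_exp_sub_one_sub_id_le (x := x) (by rw [abs_of_nonneg h0]; exact h1)
  have := (abs_le.1 h).2
  nlinarith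

section

variable {k N : ℕ} {G : Type} [AddCommGroup G] [Fintype G] [DecidableEq G]

/-- inner edges of one player at the pair `t` -/
def xx (u v : Fin N → G → ℝ) (t : Fin N) (z : Inp N G) : ℝ :=
  ∑ g, u (z.1 t) g * v (z.2.1 t) (g + z.2.2 t)

lemma mgf1 (u v : Fin N → G → ℝ) (u0 : ∀ i g, 0 ≤ u i g) (u1 : ∀ i g, u i g ≤ 1)
    (v0 : ∀ i g, 0 ≤ v i g) (v1 : ∀ i g, v i g ≤ 1) (H : Finset (Fin N)) (hH : 2 * H.card ≤ N + 2) :
    ev (fun z : Inp N G => Real.exp (1 / (Fintype.card G : ℝ) * ∑ t ∈ H, xx u v t z)) ≤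
      Real.exp (H.card * (8 / ((N : ℝ) ^ 2 * (Fintype.card G : ℝ) ^ 2) *
        ((∑ i, ∑ g, u i g) * ∑ j, ∑ g, v j g))) := by
  set q : ℝ := (Fintype.card G : ℝ) with hq
  have hq0 : 0 < q := by rw [hq]; exact_mod_cast Fintype.card_pos
  set U : Fin N → ℝ := fun i => ∑ g, u i g with hU
  set Vv : Fin N → ℝ := fun j => ∑ g, v j g with hV
  have U0 : ∀ i, 0 ≤ U i := fun i => sum_nonneg fun g _ => u0 i g
  have V0 : ∀ i, 0 ≤ Vv i := fun i => sum_nonneg fun g _ => v0 i g
  have x0 : ∀ t z, 0 ≤ xx u v t z := fun t z => sum_nonneg fun g _ => mul_nonneg (u0 _ _) (v0 _ _)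
  have x1 : ∀ t z, xx u v t z ≤ q := by
    intro t z
    unfold xx
    calc ∑ g, u (z.1 t) g * v (z.2.1 t) (g + z.2.2 t) ≤ ∑ _g : G, (1 : ℝ) :=
          sum_le_sum fun g _ => by
            have := mul_le_mul (u1 (z.1 t) g) (v1 (z.2.1 t) (g + z.2.2 t)) (v0 _ _) zero_le_one
            linarith
      _ = q := by rw [sum_const, card_univ, nsmul_eq_mul, mul_one]
  -- step 1
  have st1 : ∀ z : Inp N G, Real.exp (1 / q * ∑ t ∈ H, xx u v t z) ≤
      ∏ t ∈ H, (1 + 2 / q * xx u v t z) := by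
    intro z
    rw [mul_sum, Real.exp_sum]
    refine prod_le_prod (fun t _ => (Real.exp_pos _).le) fun t _ => ?_
    have := exp_le_two (x := 1 / q * xx u v t z) (by have := x0 t z; positivity)
      (by rw [one_div, inv_mul_le_iff₀ hq0, mul_one]; exact x1 t z)
    calc _ ≤ _ := this
      _ = _ := by ring
  -- step 2
  have st2 : ∀ σ τ : Equiv.Perm (Fin N), ev (fun w : Fin N → G => ∏ t ∈ H, (1 + 2 / q * xx u v t (σ, τ, w))) =
      ∏ t ∈ H, (1 + 2 / q ^ 2 * (U (σ t) * Vv (τ t))) := by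
    intro σ τ
    set pf : Fin N → G → ℝ := fun t d => if t ∈ H then
      (1 + 2 / q * ∑ g, u (σ t) g * v (τ t) (g + d)) else 1 with hpf
    have e1 : ∀ w : Fin N → G, ∏ t ∈ H, (1 + 2 / q * xx u v t (σ, τ, w)) = ∏ t, pf t (w t) := by
      intro w
      rw [hpf]
      simp only
      rw [prod_ite_mem univ H (fun t => 1 + 2 / q * ∑ g, u (σ t) g * v (τ t) (g + w t)), univ_inter]
      rfl
    rw [ev_congr e1, ev_pi]
    have e2 : ∀ t, ev (pf t) = if t ∈ H then (1 + 2 / q ^ 2 * (U (σ t) * Vv (τ t))) else 1 := by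
      intro t
      rw [hpf]
      by_cases ht : t ∈ H
      · simp only [ht, if_true]
        rw [ev_add, ev_const, ev_mul]
        congr 1
        have : ev (fun d => ∑ g, u (σ t) g * v (τ t) (g + d)) = U (σ t) * Vv (τ t) / q := by
          rw [ev_sum, hU, sum_mul, sum_div]
          refine sum_congr rfl fun g _ => ?_
          rw [ev_mul, mul_div_assoc]
          congr 1
          unfold ev
          congr 1
          exact Equiv.sum_comp (Equiv.addLeft g) (fun d => v (τ t) d)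
        rw [this]
        field_simp
      · simp only [ht, if_false]
        exact ev_const _
    simp only [e2]
    rw [prod_ite_mem univ H (fun t => 1 + 2 / q ^ 2 * (U (σ t) * Vv (τ t))), univ_inter]
  have hA : ev (fun z : Inp N G => Real.exp (1 / q * ∑ t ∈ H, xx u v t z)) ≤
      ev (fun σ : Equiv.Perm (Fin N) => ev (fun τ : Equiv.Perm (Fin N) =>
        ∏ t ∈ H, (1 + 2 / q ^ 2 * (U (σ t) * Vv (τ t))))) := by
    refine (ev_mono st1).trans (le_of_eq ?_)
    rw [ev_prod]
    refine ev_congr fun σ => ?_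
    rw [ev_prod]
    refine ev_congr fun τ => ?_
    exact st2 σ τ
  have s1 : 0 ≤ ∑ j, Vv j := sum_nonneg fun j _ => V0 j
  have s2 : 0 ≤ ∑ j, U j := sum_nonneg fun j _ => U0 j
  have hB : ∀ σ : Equiv.Perm (Fin N), ev (fun τ : Equiv.Perm (Fin N) =>
        ∏ t ∈ H, (1 + 2 / q ^ 2 * (U (σ t) * Vv (τ t)))) ≤
        ∏ t ∈ H, (1 + 4 / (N * q ^ 2) * (∑ j, Vv j) * U (σ t)) := by
    intro σ
    refine (perm_prod (fun t j => 2 / q ^ 2 * (U (σ t) * Vv j))
      (fun t j => mul_nonneg (by positivity) (mul_nonneg (U0 _) (V0 _))) H hH).trans (le_of_eq ?_)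
    refine prod_congr rfl fun t _ => ?_
    rw [← mul_sum, ← mul_sum]
    ring
  have hC : ev (fun σ : Equiv.Perm (Fin N) => ∏ t ∈ H, (1 + 4 / (N * q ^ 2) * (∑ j, Vv j) * U (σ t))) ≤
      ∏ t ∈ H, (1 + 8 / ((N : ℝ) ^ 2 * q ^ 2) * ((∑ i, U i) * ∑ j, Vv j)) := by
    refine (perm_prod (fun t i => 4 / (N * q ^ 2) * (∑ j, Vv j) * U i)
      (fun t j => mul_nonneg (mul_nonneg (by positivity) s1) (U0 _)) H hH).trans (le_of_eq ?_)
    refine prod_congr rfl fun t _ => ?_
    rw [← mul_sum]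
    ring
  refine hA.trans ((ev_mono hB).trans (hC.trans ?_))
  exact prod_one_add_le H _ (mul_nonneg (by positivity) (mul_nonneg s2 s1))

variable {V : Type} [Fintype V] [DecidableEq V]

/-- indicator of `S` on the left -/
noncomputable def uL (e : W k N G ≃ V) (S : Finset V) (a : Fin k) (i : Fin N) (g : G) : ℝ :=
  if e (Sum.inl (a, i, g)) ∈ S then 1 else 0

/-- indicator of `S` on the right -/
noncomputable def uR (e : W k N G ≃ V) (S : Finset V) (a : Fin k) (i : Fin N) (g : G) : ℝ :=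
  if e (Sum.inr (a, i, g)) ∈ S then 1 else 0

lemma mgfH (e : W k N G ≃ V) (S : Finset V) (hS : S.card = 2 * (k * N)) (H : Finset (Fin N))
    (hH : 2 * H.card ≤ N + 2) (hN : 0 < N) :
    ev (fun ρ : Fin k × Fin k → Inp N G => Real.exp (1 / (Fintype.card G : ℝ) *
      ∑ p, ∑ t ∈ H, xx (uL e S p.1) (uR e S p.2) t (ρ p))) ≤
      Real.exp ((N + 2) * (4 * k ^ 2 / (Fintype.card G : ℝ) ^ 2)) := by
  set q : ℝ := (Fintype.card G : ℝ) with hq
  have hq0 : 0 < q := by rw [hq]; exact_mod_cast Fintype.card_pos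
  have hNr : (0 : ℝ) < N := by exact_mod_cast hN
  set A : Fin k → ℝ := fun a => ∑ i, ∑ g, uL e S a i g with hA
  set B : Fin k → ℝ := fun a => ∑ i, ∑ g, uR e S a i g with hB
  have L0 : ∀ a i g, 0 ≤ uL e S a i g := fun a i g => by unfold uL; split_ifs <;> norm_num
  have L1 : ∀ a i g, uL e S a i g ≤ 1 := fun a i g => by unfold uL; split_ifs <;> norm_num
  have R0 : ∀ a i g, 0 ≤ uR e S a i g := fun a i g => by unfold uR; split_ifs <;> norm_num
  have R1 : ∀ a i g, uR e S a i g ≤ 1 := fun a i g => by unfold uR; split_ifs <;> norm_num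
  have hsum : (∑ a, A a) + (∑ a, B a) = 2 * (k * N) := by
    have h1 : ∑ v, (if v ∈ S then (1 : ℝ) else 0) = 2 * (k * N) := by
      rw [sum_boole]
      have : (univ.filter fun v => v ∈ S) = S := by ext; simp
      rw [this, hS]
      push_cast
      ring
    rw [← h1, ← Equiv.sum_comp e (fun v => if v ∈ S then (1 : ℝ) else 0), Fintype.sum_sum_type]
    congr 1
    · rw [Fintype.sum_prod_type]
      refine sum_congr rfl fun a _ => ?_
      rw [Fintype.sum_prod_type]
      rfl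
    · rw [Fintype.sum_prod_type]
      refine sum_congr rfl fun a _ => ?_
      rw [Fintype.sum_prod_type]
      rfl
  have hprod : (∑ a, A a) * (∑ a, B a) ≤ (k * N : ℝ) ^ 2 := by
    have h2 : (2 * (k * N) : ℝ) ^ 2 = ((∑ a, A a) + (∑ a, B a)) ^ 2 := by rw [hsum]
    nlinarith [sq_nonneg ((∑ a, A a) - (∑ a, B a)), h2]
  have e1 : ∀ ρ : Fin k × Fin k → Inp N G, Real.exp (1 / q *
      ∑ p, ∑ t ∈ H, xx (uL e S p.1) (uR e S p.2) t (ρ p)) =
      ∏ p, Real.exp (1 / q * ∑ t ∈ H, xx (uL e S p.1) (uR e S p.2) t (ρ p)) := by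
    intro ρ
    rw [← Real.exp_sum, mul_sum]
  rw [ev_congr e1, ev_pi (fun (p : Fin k × Fin k) (z : Inp N G) =>
    Real.exp (1 / q * ∑ t ∈ H, xx (uL e S p.1) (uR e S p.2) t z))]
  calc ∏ p : Fin k × Fin k, ev (fun z => Real.exp (1 / q * ∑ t ∈ H, xx (uL e S p.1) (uR e S p.2) t z))
      ≤ ∏ p : Fin k × Fin k, Real.exp (H.card * (8 / ((N : ℝ) ^ 2 * q ^ 2) * (A p.1 * B p.2))) := by
        refine prod_le_prod (fun p _ => ev_nonneg fun z => (Real.exp_pos _).le) fun p _ => ?_
        exact mgf1 (uL e S p.1) (uR e S p.2) (L0 _) (L1 _) (R0 _) (R1 _) H hH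
    _ = Real.exp (H.card * (8 / ((N : ℝ) ^ 2 * q ^ 2) * ((∑ a, A a) * (∑ a, B a)))) := by
        rw [← Real.exp_sum, ← mul_sum, ← mul_sum, Fintype.sum_prod_type]
        congr 3
        rw [sum_mul]
        exact sum_congr rfl fun a _ => by rw [mul_sum]
    _ ≤ Real.exp ((N + 2) * (4 * k ^ 2 / q ^ 2)) := by
        apply Real.exp_le_exp.2
        have h1 : (H.card : ℝ) ≤ (N + 2) / 2 := by
          have : (2 * H.card : ℝ) ≤ N + 2 := by exact_mod_cast hH
          linarith
        calc (H.card : ℝ) * (8 / ((N : ℝ) ^ 2 * q ^ 2) * ((∑ a, A a) * (∑ a, B a)))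
            ≤ H.card * (8 / ((N : ℝ) ^ 2 * q ^ 2) * (k * N : ℝ) ^ 2) := by
              refine mul_le_mul_of_nonneg_left ?_ (Nat.cast_nonneg _)
              exact mul_le_mul_of_nonneg_left hprod (by positivity)
          _ ≤ (N + 2) / 2 * (8 / ((N : ℝ) ^ 2 * q ^ 2) * (k * N : ℝ) ^ 2) :=
              mul_le_mul_of_nonneg_right h1 (by positivity)
          _ = _ := by field_simp; ring

lemma inn_eq (e : W k N G ≃ V) (ρ : Fin k × Fin k → Inp N G) (S : Finset V) :
    inn e ρ S = ∑ p, ∑ t, xx (uL e S p.1) (uR e S p.2) t (ρ p) := by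
  unfold inn xx
  rw [Fintype.sum_prod_type]
  refine sum_congr rfl fun p _ => ?_
  rw [Fintype.sum_prod_type]
  rfl

lemma mgfAll (e : W k N G ≃ V) (S : Finset V) (hS : S.card = 2 * (k * N)) (hN : 0 < N) :
    ev (fun ρ : Fin k × Fin k → Inp N G => Real.exp (1 / (2 * (Fintype.card G : ℝ)) *
      inn e ρ S)) ≤ Real.exp ((N + 2) * (4 * k ^ 2 / (Fintype.card G : ℝ) ^ 2)) := by
  set q : ℝ := (Fintype.card G : ℝ) with hq
  have hq0 : 0 < q := by rw [hq]; exact_mod_cast Fintype.card_pos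
  set H : Finset (Fin N) := univ.filter fun t => 2 * (t : ℕ) < N with hH
  have hc1 : 2 * H.card ≤ N + 2 := by
    have : H.card ≤ (N + 1) / 2 := by
      have h1 : H.card = (H.image (fun t : Fin N => (t : ℕ))).card :=
        (card_image_of_injective _ Fin.val_injective).symm
      rw [h1]
      have h2 : H.image (fun t : Fin N => (t : ℕ)) ⊆ range ((N + 1) / 2) := by
        intro x hx
        rw [mem_image] at hx
        obtain ⟨t, ht, rfl⟩ := hx
        rw [hH, mem_filter] at ht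
        rw [mem_range]
        omega
      calc _ ≤ (range ((N + 1) / 2)).card := card_le_card h2
        _ = _ := card_range _
    omega
  have hc2 : 2 * (Hᶜ).card ≤ N + 2 := by
    have : (Hᶜ).card ≤ (N + 1) / 2 := by
      have h1 : (Hᶜ).card = ((Hᶜ).image (fun t : Fin N => N - 1 - (t : ℕ))).card := by
        refine (card_image_of_injOn ?_).symm
        intro x _ y _ hxy
        simp only at hxy
        have := x.2
        have := y.2
        exact Fin.ext (by omega)
      rw [h1]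
      have h2 : (Hᶜ).image (fun t : Fin N => N - 1 - (t : ℕ)) ⊆ range ((N + 1) / 2) := by
        intro x hx
        rw [mem_image] at hx
        obtain ⟨t, ht, rfl⟩ := hx
        rw [mem_compl, hH, mem_filter] at ht
        have h3 : ¬ 2 * (t : ℕ) < N := fun h => ht ⟨mem_univ _, h⟩
        have := t.2
        rw [mem_range]
        omega
      calc _ ≤ (range ((N + 1) / 2)).card := card_le_card h2
        _ = _ := card_range _
    omega
  have pw : ∀ ρ : Fin k × Fin k → Inp N G, Real.exp (1 / (2 * q) * inn e ρ S) ≤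
      1 / 2 * Real.exp (1 / q * ∑ p, ∑ t ∈ H, xx (uL e S p.1) (uR e S p.2) t (ρ p)) +
      1 / 2 * Real.exp (1 / q * ∑ p, ∑ t ∈ Hᶜ, xx (uL e S p.1) (uR e S p.2) t (ρ p)) := by
    intro ρ
    rw [inn_eq]
    set x := ∑ p, ∑ t ∈ H, xx (uL e S p.1) (uR e S p.2) t (ρ p) with hx
    set y := ∑ p, ∑ t ∈ Hᶜ, xx (uL e S p.1) (uR e S p.2) t (ρ p) with hy
    have h1 : ∑ p, ∑ t, xx (uL e S p.1) (uR e S p.2) t (ρ p) = x + y := by
      rw [hx, hy, ← sum_add_distrib]
      exact sum_congr rfl fun p _ => (sum_add_sum_compl H _).symm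
    rw [h1]
    have h2 : Real.exp (1 / (2 * q) * (x + y)) = Real.exp (x / (2 * q)) * Real.exp (y / (2 * q)) := by
      rw [← Real.exp_add]; congr 1; ring
    have h3 : Real.exp (1 / q * x) = Real.exp (x / (2 * q)) ^ 2 := by
      rw [sq, ← Real.exp_add]; congr 1; field_simp; ring
    have h4 : Real.exp (1 / q * y) = Real.exp (y / (2 * q)) ^ 2 := by
      rw [sq, ← Real.exp_add]; congr 1; field_simp; ring
    rw [h2, h3, h4]
    nlinarith [sq_nonneg (Real.exp (x / (2 * q)) - Real.exp (y / (2 * q)))]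
  have h1 := mgfH e S hS H hc1 hN
  have h2 := mgfH e S hS Hᶜ hc2 hN
  calc ev (fun ρ : Fin k × Fin k → Inp N G => Real.exp (1 / (2 * q) * inn e ρ S))
      ≤ _ := ev_mono pw
    _ = 1 / 2 * ev (fun ρ : Fin k × Fin k → Inp N G => Real.exp (1 / q *
          ∑ p, ∑ t ∈ H, xx (uL e S p.1) (uR e S p.2) t (ρ p))) +
        1 / 2 * ev (fun ρ : Fin k × Fin k → Inp N G => Real.exp (1 / q *
          ∑ p, ∑ t ∈ Hᶜ, xx (uL e S p.1) (uR e S p.2) t (ρ p))) := by
        rw [ev_add, ev_mul, ev_mul]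
    _ ≤ _ := by linarith

/-- probability that some set has many inner edges -/
theorem bad_prob (e : W k N G ≃ V) (hN : 0 < N) (θ : ℝ) :
    ev (fun ρ : Fin k × Fin k → Inp N G =>
      if ∃ S : Finset V, S.card = 2 * (k * N) ∧ θ < inn e ρ S then (1 : ℝ) else 0) ≤
      Real.exp (2 * k * N * Fintype.card G - θ / (2 * Fintype.card G) +
        (N + 2) * (4 * k ^ 2 / (Fintype.card G : ℝ) ^ 2)) := by
  set q : ℝ := (Fintype.card G : ℝ) with hq
  have hq0 : 0 < q := by rw [hq]; exact_mod_cast Fintype.card_pos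
  have pw : ∀ ρ : Fin k × Fin k → Inp N G,
      (if ∃ S : Finset V, S.card = 2 * (k * N) ∧ θ < inn e ρ S then (1 : ℝ) else 0) ≤
      ∑ S ∈ (univ : Finset (Finset V)).filter (fun S => S.card = 2 * (k * N)),
        Real.exp (-(θ / (2 * q))) * Real.exp (1 / (2 * q) * inn e ρ S) := by
    intro ρ
    split_ifs with h
    · obtain ⟨S, hS, hi⟩ := h
      refine le_trans ?_ (single_le_sum (f := fun S => Real.exp (-(θ / (2 * q))) *
        Real.exp (1 / (2 * q) * inn e ρ S)) (fun S _ => by positivity)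
        (mem_filter.2 ⟨mem_univ S, hS⟩))
      rw [← Real.exp_add]
      apply Real.one_le_exp
      have : -(θ / (2 * q)) + 1 / (2 * q) * inn e ρ S = (inn e ρ S - θ) / (2 * q) := by ring
      rw [this]
      exact div_nonneg (by linarith) (by positivity)
    · exact sum_nonneg fun S _ => by positivity
  have hcard : Fintype.card V = 2 * k * N * Fintype.card G := by
    rw [← Fintype.card_congr e]
    simp only [Fintype.card_sum, Fintype.card_prod, Fintype.card_fin]
    ring
  calc _ ≤ _ := ev_mono pw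
    _ = ∑ S ∈ (univ : Finset (Finset V)).filter (fun S => S.card = 2 * (k * N)),
        Real.exp (-(θ / (2 * q))) * ev (fun ρ : Fin k × Fin k → Inp N G =>
          Real.exp (1 / (2 * q) * inn e ρ S)) := by
        rw [ev_sum]
        exact sum_congr rfl fun S _ => ev_mul _ _
    _ ≤ ∑ S ∈ (univ : Finset (Finset V)).filter (fun S => S.card = 2 * (k * N)),
        Real.exp (-(θ / (2 * q))) * Real.exp ((N + 2) * (4 * k ^ 2 / q ^ 2)) := by
        refine sum_le_sum fun S hS => mul_le_mul_of_nonneg_left ?_ (Real.exp_pos _).le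
        exact mgfAll e S (mem_filter.1 hS).2 hN
    _ ≤ Real.exp (2 * k * N * q) * (Real.exp (-(θ / (2 * q))) *
        Real.exp ((N + 2) * (4 * k ^ 2 / q ^ 2))) := by
        rw [sum_const, nsmul_eq_mul]
        refine mul_le_mul_of_nonneg_right ?_ (by positivity)
        calc (((univ : Finset (Finset V)).filter (fun S => S.card = 2 * (k * N))).card : ℝ)
            ≤ ((univ : Finset (Finset V)).card : ℝ) := by exact_mod_cast card_filter_le _ _
          _ = (2 : ℝ) ^ (2 * k * N * Fintype.card G) := by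
              rw [card_univ, Fintype.card_finset, hcard]; push_cast; rfl
          _ ≤ (Real.exp 1) ^ (2 * k * N * Fintype.card G) := by
              apply pow_le_pow_left₀ (by norm_num)
              have := Real.add_one_le_exp (1 : ℝ)
              linarith
          _ = Real.exp (2 * k * N * q) := by
              rw [← Real.exp_nat_mul]; congr 1; push_cast; rw [hq]; ring
    _ = _ := by
        rw [← Real.exp_add, ← Real.exp_add]
        congr 1
        ring

end

end Pool.Agent.V7H89.SX
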